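import Pool.Agent.Helper72_QDA.Edm
import Pool.Agent.Helper76_QDA.Lof
import Pool.Agent.Helper30_QDA.Upf
import Pool.Agent.Helper79_QDA.NGN2

/-!
# QDA, EDM without hypotheses
-/

set_option autoImplicit false

noncomputable section

namespace Pool.Agent.QDA.H72

/-- EDM -/
theorem edmT : EdmStmt := edm Pool.Agent.QDA.H79.tri2' Pool.Agent.QDA.H79.ngn2
  Pool.Agent.QDA.H30.upf Pool.Agent.QDA.H76.lof

end Pool.Agent.QDA.H72
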