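import Pool.Agent.Helper72_QDA.Tra

/-!
# QDA, EDM: the diagonal of the true resolvent is close to the gauge
-/

set_option autoImplicit false

open scoped BigOperators ComplexConjugate

noncomputable section

namespace Pool.Agent.QDA.H72

open Pool.Agent.ANR (Net Gr)
open Pool.Agent.HSL14 (mat gr_sym mat_unit ward_diag)

variable {X : Type} [Fintype X] [DecidableEq X]

/-- the diagonal of the true resolvent -/
theorem dia2 (H H₀ : Matrix X X ℝ) (k : X → ℝ) (D : Finset X)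
    (η e₀ ε' B ε₁ : ℝ) (m₀ : ℂ) (hH : ∀ x y, H x y = H y x) (hH₀ : Net H₀ k) (he : 0 < e₀)
    (hη : e₀ ≤ η) (hoff : ∀ x y, x ≠ y → H x y = H₀ x y) (hε0 : 0 ≤ ε') (hε : ε' ≤ 1 / 2)
    (hd : ∀ x, |H x x - H₀ x x| + |(if x ∈ D then e₀ else η) - k x| ≤
      ε' * (Real.sqrt (if x ∈ D then e₀ else η) * Real.sqrt (k x))) (hε₁ : 0 < ε₁)
    (hB : ∀ y ∈ Dᶜ, (Gr H₀ k y y).im ≤ B) (hm : ∀ y ∈ Dᶜ, ‖Gr H₀ k y y - m₀‖ ≤ ε₁ / 8)
    (hBe : ε' * (2 * B) ≤ ε₁ / 8) :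
    (((Dᶜ).filter fun x => ε₁ / 2 < ‖Gr H (fun _ => η) x x - m₀‖).card : ℝ) ≤
      (∑ b ∈ D, (Gr H (fun _ => η) b b).im) / (ε₁ / 4) := by
  have hη0 : 0 < η := by linarith
  have hN : Net H (fun _ => η) := ⟨hH, fun _ => hη0⟩
  obtain ⟨κN, hκN⟩ : ∃ κN : X → ℝ, κN = fun x => if x ∈ D then e₀ else η := ⟨_, rfl⟩
  have hNN : Net H κN := ⟨hH, fun x => by
    rw [hκN]
    simp only
    split_ifs
    · exact he
    · exact hη0⟩
  have hd' : ∀ x, |H x x - H₀ x x| + |κN x - k x| ≤ ε' * (Real.sqrt (κN x) * Real.sqrt (k x)) :=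
    fun x => by
      rw [hκN]
      exact hd x
  have h1 := Pool.Agent.ACS.H72.tri hN hNN D (fun x hx => by
    rw [hκN]
    simp only
    rw [if_neg hx]) (fun b hb => by
    rw [hκN]
    simp only
    rw [if_pos hb]
    exact hη)
  have him : ∀ b, 0 ≤ (Gr H (fun _ => η) b b).im := fun b =>
    Pool.Agent.ACS.H48.im_nonneg hN b
  have h2 : ∑ x ∈ Dᶜ, ‖Gr H κN x x - Gr H (fun _ => η) x x‖ ≤
      ∑ b ∈ D, (Gr H (fun _ => η) b b).im := by
    have e1 : ∑ x ∈ Dᶜ, η * ‖Gr H κN x x - Gr H (fun _ => η) x x‖ =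
        η * ∑ x ∈ Dᶜ, ‖Gr H κN x x - Gr H (fun _ => η) x x‖ := by
      rw [Finset.mul_sum]
    have e2 : ∑ b ∈ D, (η - κN b) * (Gr H (fun _ => η) b b).im ≤
        η * ∑ b ∈ D, (Gr H (fun _ => η) b b).im := by
      rw [Finset.mul_sum]
      refine Finset.sum_le_sum fun b hb => mul_le_mul_of_nonneg_right ?_ (him b)
      have := hNN.pos b
      linarith
    rw [e1] at h1
    exact le_of_mul_le_mul_left (h1.trans e2) hη0
  refine le_trans ?_ (markov (Dᶜ) (fun x => ‖Gr H κN x x - Gr H (fun _ => η) x x‖) (ε₁ / 4) _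
    (by linarith) (fun x _ => norm_nonneg _) h2)
  have hsub : ((Dᶜ).filter fun x => ε₁ / 2 < ‖Gr H (fun _ => η) x x - m₀‖) ⊆
      (Dᶜ).filter fun x => ε₁ / 4 < ‖Gr H κN x x - Gr H (fun _ => η) x x‖ := by
    intro x hx
    obtain ⟨hxD, hx'⟩ := Finset.mem_filter.1 hx
    refine Finset.mem_filter.2 ⟨hxD, ?_⟩
    have g1 := hB x hxD
    have g2 := hm x hxD
    have u1 := Pool.Agent.ACS.H48.ngn_im hH₀ hNN hε hoff hd' x
    have u2 := Pool.Agent.ACS.H48.ngn hH₀ hNN hoff hd' x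
    have a0 := Pool.Agent.ACS.H48.im_nonneg hNN x
    have b0 := Pool.Agent.ACS.H48.im_nonneg hH₀ x
    obtain ⟨a, ha⟩ : ∃ a, a = (Gr H κN x x).im := ⟨_, rfl⟩
    obtain ⟨b, hb⟩ : ∃ b, b = (Gr H₀ k x x).im := ⟨_, rfl⟩
    rw [← ha, ← hb] at u1 u2
    rw [← ha] at a0
    rw [← hb] at b0 g1
    have u3 : Real.sqrt a * Real.sqrt b ≤ 2 * B := by
      have e1 := Real.sq_sqrt a0
      have e2 := Real.sq_sqrt b0
      nlinarith [sq_nonneg (Real.sqrt a - Real.sqrt b)]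
    have u4 : ‖Gr H κN x x - Gr H₀ k x x‖ ≤ ε₁ / 8 :=
      u2.trans ((mul_le_mul_of_nonneg_left u3 hε0).trans hBe)
    have u5 : ‖Gr H (fun _ => η) x x - m₀‖ ≤ ‖Gr H κN x x - Gr H (fun _ => η) x x‖ +
        ‖Gr H κN x x - Gr H₀ k x x‖ + ‖Gr H₀ k x x - m₀‖ := by
      have e1 : Gr H (fun _ => η) x x - m₀ = -(Gr H κN x x - Gr H (fun _ => η) x x) +
          (Gr H κN x x - Gr H₀ k x x) + (Gr H₀ k x x - m₀) := by ring
      rw [e1]
      refine (norm_add₃_le).trans ?_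
      rw [norm_neg]
    linarith
  exact_mod_cast Finset.card_le_card hsub

end Pool.Agent.QDA.H72
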