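import Pool.Agent.Helper48_ACS.End
import Pool.Agent.Helper72_ACS.Tri2

/-!
# QDA, EDQ: a real shift of the potential on a small set
-/

set_option autoImplicit false

open scoped BigOperators ComplexConjugate

noncomputable section

namespace Pool.Agent.QDA.H72

open Pool.Agent.ANR (Net Gr)
open Pool.Agent.HSL14 (mat gr_sym mat_unit ward_diag)

variable {X : Type} [Fintype X] [DecidableEq X]

/-- Ward, columns -/
theorem ward_col {H : Matrix X X ℝ} {η : ℝ} (hN : Net H (fun _ => η)) (b : X) :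
    ∑ x, η * ‖Gr H (fun _ => η) x b‖ ^ 2 = (Gr H (fun _ => η) b b).im := by
  have h1 := ward_diag hN.sym (mat_unit hN) b
  rw [← h1]
  refine Finset.sum_congr rfl fun x _ => ?_
  rw [gr_sym hN.sym _ x b]

/-- a real shift of the potential on `D` -/
theorem shift (H H₂ : Matrix X X ℝ) (D : Finset X) (η ρ : ℝ) (u : X → ℝ)
    (hH : ∀ x y, H x y = H y x) (hH₂ : ∀ x y, H₂ x y = H₂ y x) (hη : 0 < η) (hρ : 0 ≤ ρ)
    (hu0 : ∀ x, x ∉ D → u x = 0) (hu : ∀ x, |u x| ≤ ρ * η)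
    (hHH : ∀ x y, H x y = H₂ x y + if x = y then u x else 0) :
    (∀ b, (Gr H₂ (fun _ => η) b b).im ≤ (2 + 2 * ρ ^ 2) * (Gr H (fun _ => η) b b).im) ∧
    (∑ x, ∑ y, η * ‖Gr H (fun _ => η) x y - Gr H₂ (fun _ => η) x y‖ ^ 2 ≤
      ρ ^ 2 * ∑ b ∈ D, (Gr H (fun _ => η) b b).im) ∧
    ∑ x, ‖Gr H (fun _ => η) x x - Gr H₂ (fun _ => η) x x‖ ≤
      ρ / 2 * (3 + 2 * ρ ^ 2) * ∑ b ∈ D, (Gr H (fun _ => η) b b).im := by
  have hN : Net H (fun _ => η) := ⟨hH, fun _ => hη⟩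
  have hN₂ : Net H₂ (fun _ => η) := ⟨hH₂, fun _ => hη⟩
  have hid : ∀ a b, Gr H (fun _ => η) a b - Gr H₂ (fun _ => η) a b =
      ∑ c, Gr H₂ (fun _ => η) a c * (η * (((-(u c) / η : ℝ) : ℂ) * Gr H (fun _ => η) c b)) := by
    intro a b
    have h1 := Pool.Agent.AHH.H72.gr_change (z := fun c => ((-(u c) : ℝ) : ℂ)) hN₂ hN
      (fun x y => by
        rw [hHH x y, Complex.ofReal_re]
        split_ifs <;> ring)
      (fun x => by rw [Complex.ofReal_im, add_zero]) a b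
    rw [h1, add_sub_cancel_left]
    refine Finset.sum_congr rfl fun c _ => ?_
    have hη' : (η : ℂ) ≠ 0 := by exact_mod_cast hη.ne'
    push_cast
    field_simp
  have him : ∀ b, 0 ≤ (Gr H (fun _ => η) b b).im := fun b =>
    Pool.Agent.ACS.H48.im_nonneg hN b
  -- one column
  have hcol : ∀ y, ∑ x, η * ‖Gr H (fun _ => η) x y - Gr H₂ (fun _ => η) x y‖ ^ 2 ≤
      ρ ^ 2 * ∑ b ∈ D, η * ‖Gr H (fun _ => η) b y‖ ^ 2 := by
    intro y
    have h1 := Pool.Agent.ACS.H72.contr1 hN₂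
      (fun c => ((-(u c) / η : ℝ) : ℂ) * Gr H (fun _ => η) c y)
    calc ∑ x, η * ‖Gr H (fun _ => η) x y - Gr H₂ (fun _ => η) x y‖ ^ 2 =
          ∑ x, η * ‖∑ c, Gr H₂ (fun _ => η) x c *
            (η * (((-(u c) / η : ℝ) : ℂ) * Gr H (fun _ => η) c y))‖ ^ 2 := by
            refine Finset.sum_congr rfl fun x _ => ?_
            rw [hid x y]
      _ ≤ ∑ c, η * ‖((-(u c) / η : ℝ) : ℂ) * Gr H (fun _ => η) c y‖ ^ 2 := h1
      _ = ∑ c ∈ D, η * ‖((-(u c) / η : ℝ) : ℂ) * Gr H (fun _ => η) c y‖ ^ 2 := by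
            symm
            refine Finset.sum_subset (Finset.subset_univ _) fun c _ hc => ?_
            rw [hu0 c hc]
            simp
      _ ≤ ∑ c ∈ D, ρ ^ 2 * (η * ‖Gr H (fun _ => η) c y‖ ^ 2) := by
            refine Finset.sum_le_sum fun c _ => ?_
            rw [norm_mul, mul_pow, Complex.norm_real, Real.norm_eq_abs, abs_div, abs_neg,
              abs_of_pos hη]
            have h2 : |u c| / η ≤ ρ := by
              rw [div_le_iff₀ hη]
              exact hu c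
            have h3 : (|u c| / η) ^ 2 ≤ ρ ^ 2 := pow_le_pow_left₀ (by positivity) h2 2
            have h4 : 0 ≤ η * ‖Gr H (fun _ => η) c y‖ ^ 2 := by positivity
            nlinarith [mul_le_mul_of_nonneg_right h3 h4]
      _ = _ := by rw [Finset.mul_sum]
  have h1 : ∀ b, (Gr H₂ (fun _ => η) b b).im ≤ (2 + 2 * ρ ^ 2) * (Gr H (fun _ => η) b b).im := by
    intro b
    rw [← ward_col hN₂ b]
    have e1 := hcol b
    have e2 : ∑ c ∈ D, η * ‖Gr H (fun _ => η) c b‖ ^ 2 ≤ (Gr H (fun _ => η) b b).im := by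
      rw [← ward_col hN b]
      exact Finset.sum_le_sum_of_subset_of_nonneg (Finset.subset_univ _) fun x _ _ => by positivity
    have e3 : ∑ x, η * ‖Gr H₂ (fun _ => η) x b‖ ^ 2 ≤
        2 * (∑ x, η * ‖Gr H (fun _ => η) x b‖ ^ 2) +
        2 * ∑ x, η * ‖Gr H (fun _ => η) x b - Gr H₂ (fun _ => η) x b‖ ^ 2 := by
      rw [Finset.mul_sum, Finset.mul_sum, ← Finset.sum_add_distrib]
      refine Finset.sum_le_sum fun x _ => ?_
      have e4 : ‖Gr H₂ (fun _ => η) x b‖ ≤ ‖Gr H (fun _ => η) x b‖ +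
          ‖Gr H (fun _ => η) x b - Gr H₂ (fun _ => η) x b‖ := by
        have := norm_sub_le (Gr H (fun _ => η) x b)
          (Gr H (fun _ => η) x b - Gr H₂ (fun _ => η) x b)
        rwa [sub_sub_cancel] at this
      have e5 : ‖Gr H₂ (fun _ => η) x b‖ ^ 2 ≤ 2 * ‖Gr H (fun _ => η) x b‖ ^ 2 +
          2 * ‖Gr H (fun _ => η) x b - Gr H₂ (fun _ => η) x b‖ ^ 2 := by
        have := mul_self_le_mul_self (norm_nonneg _) e4
        nlinarith [sq_nonneg (‖Gr H (fun _ => η) x b‖ -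
          ‖Gr H (fun _ => η) x b - Gr H₂ (fun _ => η) x b‖)]
      have := mul_le_mul_of_nonneg_left e5 hη.le
      linarith
    rw [ward_col hN b] at e3
    have e6 := mul_le_mul_of_nonneg_left e2 (sq_nonneg ρ)
    linarith
  refine ⟨h1, ?_, ?_⟩
  · rw [Finset.sum_comm]
    refine (Finset.sum_le_sum fun y _ => hcol y).trans (le_of_eq ?_)
    rw [← Finset.mul_sum, Finset.sum_comm]
    congr 1
    refine Finset.sum_congr rfl fun b _ => ?_
    rw [← ward_col hN b]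
    refine Finset.sum_congr rfl fun y _ => ?_
    rw [gr_sym hN.sym _ b y]
  · have e1 : ∀ x, ‖Gr H (fun _ => η) x x - Gr H₂ (fun _ => η) x x‖ ≤
        ∑ c ∈ D, (ρ / 2 * (η * ‖Gr H₂ (fun _ => η) x c‖ ^ 2) +
          ρ / 2 * (η * ‖Gr H (fun _ => η) x c‖ ^ 2)) := by
      intro x
      rw [hid x x]
      have e2 : ∑ c, Gr H₂ (fun _ => η) x c *
            (η * (((-(u c) / η : ℝ) : ℂ) * Gr H (fun _ => η) c x)) =
          ∑ c ∈ D, Gr H₂ (fun _ => η) x c *
            (η * (((-(u c) / η : ℝ) : ℂ) * Gr H (fun _ => η) c x)) := by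
        symm
        refine Finset.sum_subset (Finset.subset_univ _) fun c _ hc => ?_
        rw [hu0 c hc]
        simp
      rw [e2]
      refine (norm_sum_le _ _).trans (Finset.sum_le_sum fun c _ => ?_)
      rw [norm_mul, norm_mul, norm_mul, Complex.norm_real, Complex.norm_real, Real.norm_eq_abs,
        Real.norm_eq_abs, abs_of_pos hη, abs_div, abs_neg, abs_of_pos hη, gr_sym hN.sym _ c x]
      have h2 : |u c| / η ≤ ρ := by
        rw [div_le_iff₀ hη]
        exact hu c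
      have h3 : ‖Gr H₂ (fun _ => η) x c‖ * (η * (|u c| / η * ‖Gr H (fun _ => η) x c‖)) ≤
          ‖Gr H₂ (fun _ => η) x c‖ * (η * (ρ * ‖Gr H (fun _ => η) x c‖)) := by
        gcongr
      refine h3.trans ?_
      have h4 := mul_nonneg (mul_nonneg hρ hη.le)
        (sq_nonneg (‖Gr H₂ (fun _ => η) x c‖ - ‖Gr H (fun _ => η) x c‖))
      nlinarith
    refine (Finset.sum_le_sum fun x _ => e1 x).trans ?_
    rw [Finset.sum_comm]
    have e3 : ∀ c ∈ D, ∑ x, (ρ / 2 * (η * ‖Gr H₂ (fun _ => η) x c‖ ^ 2) +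
          ρ / 2 * (η * ‖Gr H (fun _ => η) x c‖ ^ 2)) ≤
        ρ / 2 * (3 + 2 * ρ ^ 2) * (Gr H (fun _ => η) c c).im := by
      intro c _
      have e5 : ∑ x, (ρ / 2 * (η * ‖Gr H₂ (fun _ => η) x c‖ ^ 2) +
          ρ / 2 * (η * ‖Gr H (fun _ => η) x c‖ ^ 2)) =
          ρ / 2 * (Gr H₂ (fun _ => η) c c).im + ρ / 2 * (Gr H (fun _ => η) c c).im := by
        rw [← ward_col hN c, ← ward_col hN₂ c, Finset.mul_sum, Finset.mul_sum,
          ← Finset.sum_add_distrib]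
      rw [e5]
      have e4 := mul_le_mul_of_nonneg_left (h1 c) (show 0 ≤ ρ / 2 by positivity)
      linarith
    refine (Finset.sum_le_sum e3).trans (le_of_eq ?_)
    rw [Finset.mul_sum]

end Pool.Agent.QDA.H72
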