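import Pool.Agent.QDA.Stmts
import Pool.Agent.Helper48_ACS.End
import Pool.Agent.Helper72_ACS.Tri

/-!
# QDA, EDQ: from the network to the true resolvent, any finite set
-/

set_option autoImplicit false

open scoped BigOperators ComplexConjugate

noncomputable section

namespace Pool.Agent.QDA.H72

open Pool.Agent.ANR (Net Gr)
open Pool.Agent.HSL14 (mat gr_sym mat_unit ward_diag)

variable {X : Type} [Fintype X] [DecidableEq X]

/-- Markov -/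
theorem markov (A : Finset X) (F : X → ℝ) (ε S : ℝ) (hε : 0 < ε) (h0 : ∀ x ∈ A, 0 ≤ F x)
    (hS : ∑ x ∈ A, F x ≤ S) : ((A.filter fun x => ε < F x).card : ℝ) ≤ S / ε := by
  rw [le_div_iff₀ hε]
  refine le_trans ?_ hS
  calc ((A.filter fun x => ε < F x).card : ℝ) * ε = ∑ _x ∈ A.filter fun x => ε < F x, ε := by
        rw [Finset.sum_const, nsmul_eq_mul]
    _ ≤ ∑ x ∈ A.filter fun x => ε < F x, F x :=
        Finset.sum_le_sum fun x hx => (Finset.mem_filter.1 hx).2.le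
    _ ≤ ∑ x ∈ A, F x :=
        Finset.sum_le_sum_of_subset_of_nonneg (Finset.filter_subset _ _) fun x hx _ => h0 x hx

/-- from the network to the true resolvent -/
theorem trans (hT : Tri2Stmt) (hNg : Ngn2Stmt) (H H₀ : Matrix X X ℝ) (k : X → ℝ) (D : Finset X)
    (η e₀ ε' B Λ : ℝ) (hH : ∀ x y, H x y = H y x) (hH₀ : Net H₀ k) (he : 0 < e₀) (hη : 2 * e₀ ≤ η)
    (hoff : ∀ x y, x ≠ y → H x y = H₀ x y)
    (hd : ∀ x, |H x x - H₀ x x| + |(if x ∈ D then e₀ else η) - k x| ≤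
      ε' * (Real.sqrt (if x ∈ D then e₀ else η) * Real.sqrt (k x)))
    (hB : ∀ y ∈ Dᶜ, (Gr H₀ k y y).im ≤ B) (hΛ : ∀ x ∈ Dᶜ, ∀ y ∈ Dᶜ, η ≤ Λ * (k x * k y))
    (P : X → X → Prop) [∀ x y, Decidable (P x y)] :
    ∑ x ∈ Dᶜ, η * ∑ y, (if P x y then ‖Gr H (fun _ => η) x y‖ ^ 2 else 0) ≤
      7 * ∑ b ∈ D, (Gr H (fun _ => η) b b).im + 3 * (ε' ^ 2 * B * (Dᶜ.card : ℝ) +
        Λ * ∑ x, ∑ y, if P x y then
          (if x ∈ Dᶜ ∧ y ∈ Dᶜ then k x * k y * ‖Gr H₀ k x y‖ ^ 2 else 0) else 0) := by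
  have hη0 : 0 < η := by linarith
  have hN : Net H (fun _ => η) := ⟨hH, fun _ => hη0⟩
  obtain ⟨κN, hκN⟩ : ∃ κN : X → ℝ, κN = fun x => if x ∈ D then e₀ else η := ⟨_, rfl⟩
  have hNN : Net H κN := ⟨hH, fun x => by
    rw [hκN]
    simp only
    split_ifs
    · exact he
    · exact hη0⟩
  obtain ⟨g, hg⟩ : ∃ g : X → X → ℂ, g = fun x y => Gr H (fun _ => η) x y := ⟨_, rfl⟩
  obtain ⟨gN, hgN⟩ : ∃ gN : X → X → ℂ, gN = fun x y => Gr H κN x y := ⟨_, rfl⟩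
  obtain ⟨g0, hg0⟩ : ∃ g0 : X → X → ℂ, g0 = fun x y => Gr H₀ k x y := ⟨_, rfl⟩
  obtain ⟨S, hS⟩ : ∃ S : ℝ, S = ∑ b ∈ D, (Gr H (fun _ => η) b b).im := ⟨_, rfl⟩
  have hward : ∀ b, ∑ x, η * ‖g x b‖ ^ 2 = (Gr H (fun _ => η) b b).im := fun b => by
    have h1 := ward_diag hN.sym (mat_unit hN) b
    rw [← h1]
    refine Finset.sum_congr rfl fun x _ => ?_
    rw [hg]
    simp only
    rw [gr_sym hN.sym _ x b]
  have hS0 : 0 ≤ S := by
    rw [hS]
    refine Finset.sum_nonneg fun b _ => ?_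
    rw [← hward b]
    exact Finset.sum_nonneg fun x _ => by positivity
  -- part 1: `y ∈ D`
  have p1 : ∑ x ∈ Dᶜ, ∑ y ∈ D, η * ‖g x y‖ ^ 2 ≤ S := by
    rw [Finset.sum_comm, hS]
    refine Finset.sum_le_sum fun y _ => ?_
    rw [← hward y]
    exact Finset.sum_le_sum_of_subset_of_nonneg (Finset.subset_univ _) fun x _ _ => by positivity
  -- part 2: the matrix inequality
  have p2 : ∑ x ∈ Dᶜ, ∑ y ∈ Dᶜ, η * ‖g x y - gN x y‖ ^ 2 ≤ 2 * S := by
    have h1 := hT X H D η e₀ hH he (by linarith)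
    have h2 : ∑ x ∈ Dᶜ, ∑ y ∈ Dᶜ, η * ‖g x y - gN x y‖ ^ 2 =
        η * ∑ x ∈ Dᶜ, ∑ y ∈ Dᶜ,
          ‖Gr H (fun _ => η) x y - Gr H (fun z => if z ∈ D then e₀ else η) x y‖ ^ 2 := by
      rw [Finset.mul_sum]
      refine Finset.sum_congr rfl fun x _ => ?_
      rw [Finset.mul_sum, hg, hgN, hκN]
    rw [h2]
    have h3 := mul_le_mul_of_nonneg_left h1 hη0.le
    rw [← hS] at h3
    refine h3.trans ?_
    have h4 : 0 < η - e₀ := by linarith
    rw [← mul_assoc, mul_one_div]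
    refine mul_le_mul_of_nonneg_right ?_ hS0
    rw [div_le_iff₀ h4]
    linarith
  -- part 3: the diagonals
  have p3 : ∑ x ∈ Dᶜ, ∑ y ∈ Dᶜ, η * ‖gN x y - g0 x y‖ ^ 2 ≤ ε' ^ 2 * B * (Dᶜ.card : ℝ) := by
    rw [Finset.sum_comm]
    have h1 : ∀ y ∈ Dᶜ, ∑ x ∈ Dᶜ, η * ‖gN x y - g0 x y‖ ^ 2 ≤ ε' ^ 2 * B := by
      intro y hy
      have h2 := hNg X H₀ H k κN ε' hH₀ hNN hoff (fun x => by
        have h3 := hd x
        rw [hκN]
        exact h3) y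
      calc ∑ x ∈ Dᶜ, η * ‖gN x y - g0 x y‖ ^ 2 =
            ∑ x ∈ Dᶜ, κN x * ‖Gr H κN x y - Gr H₀ k x y‖ ^ 2 := by
              refine Finset.sum_congr rfl fun x hx => ?_
              rw [hgN, hg0, hκN]
              simp only
              rw [if_neg (Finset.mem_compl.1 hx)]
        _ ≤ ∑ x, κN x * ‖Gr H κN x y - Gr H₀ k x y‖ ^ 2 :=
              Finset.sum_le_sum_of_subset_of_nonneg (Finset.subset_univ _) fun x _ _ =>
                mul_nonneg (hNN.pos x).le (by positivity)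
        _ ≤ _ := h2.trans (mul_le_mul_of_nonneg_left (hB y hy) (sq_nonneg _))
    refine (Finset.sum_le_sum h1).trans (le_of_eq ?_)
    rw [Finset.sum_const, nsmul_eq_mul]
    ring
  -- part 4: the network
  have p4 : ∑ x ∈ Dᶜ, ∑ y ∈ Dᶜ, (if P x y then η * ‖g0 x y‖ ^ 2 else 0) ≤
      Λ * ∑ x, ∑ y, if P x y then
          (if x ∈ Dᶜ ∧ y ∈ Dᶜ then k x * k y * ‖Gr H₀ k x y‖ ^ 2 else 0) else 0 := by
    obtain ⟨R, hR⟩ : ∃ R : X → X → ℝ, R = fun x y => Λ * (if P x y then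
          (if x ∈ Dᶜ ∧ y ∈ Dᶜ then k x * k y * ‖Gr H₀ k x y‖ ^ 2 else 0) else 0) := ⟨_, rfl⟩
    have e0 : Λ * ∑ x, ∑ y, (if P x y then
          (if x ∈ Dᶜ ∧ y ∈ Dᶜ then k x * k y * ‖Gr H₀ k x y‖ ^ 2 else 0) else 0) =
          ∑ x, ∑ y, R x y := by
      rw [Finset.mul_sum]
      refine Finset.sum_congr rfl fun x _ => ?_
      rw [Finset.mul_sum, hR]
    have e1 : ∀ x ∈ Dᶜ, ∀ y ∈ Dᶜ, (if P x y then η * ‖g0 x y‖ ^ 2 else 0) ≤ R x y := by
      intro x hx y hy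
      rw [hR]
      simp only
      by_cases hP : P x y
      · rw [if_pos hP, if_pos hP, if_pos (And.intro hx hy), ← mul_assoc, hg0]
        exact mul_le_mul_of_nonneg_right (hΛ x hx y hy) (sq_nonneg _)
      · rw [if_neg hP, if_neg hP, mul_zero]
    have e2 : ∀ x y, 0 ≤ R x y := by
      intro x y
      by_cases h : x ∈ Dᶜ ∧ y ∈ Dᶜ
      · refine le_trans ?_ (e1 x h.1 y h.2)
        split_ifs
        · positivity
        · exact le_rfl
      · rw [hR]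
        simp only
        rw [if_neg h, ite_self, mul_zero]
    rw [e0]
    calc ∑ x ∈ Dᶜ, ∑ y ∈ Dᶜ, (if P x y then η * ‖g0 x y‖ ^ 2 else 0) ≤
          ∑ x ∈ Dᶜ, ∑ y ∈ Dᶜ, R x y :=
            Finset.sum_le_sum fun x hx => Finset.sum_le_sum fun y hy => e1 x hx y hy
      _ ≤ ∑ x ∈ Dᶜ, ∑ y, R x y := Finset.sum_le_sum fun x _ =>
            Finset.sum_le_sum_of_subset_of_nonneg (Finset.subset_univ _) fun y _ _ => e2 x y
      _ ≤ _ := Finset.sum_le_sum_of_subset_of_nonneg (Finset.subset_univ _) fun x _ _ =>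
            Finset.sum_nonneg fun y _ => e2 x y
  -- the sum
  have key : ∀ x y, (if P x y then η * ‖g x y‖ ^ 2 else 0) ≤
      3 * (η * ‖g x y - gN x y‖ ^ 2) + 3 * (η * ‖gN x y - g0 x y‖ ^ 2) +
        3 * (if P x y then η * ‖g0 x y‖ ^ 2 else 0) := by
    intro x y
    split_ifs
    · have h1 : ‖g x y‖ ≤ ‖g x y - gN x y‖ + ‖gN x y - g0 x y‖ + ‖g0 x y‖ := by
        have h2 : g x y = (g x y - gN x y) + (gN x y - g0 x y) + g0 x y := by ring
        calc ‖g x y‖ = ‖(g x y - gN x y) + (gN x y - g0 x y) + g0 x y‖ := by rw [← h2]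
          _ ≤ _ := norm_add₃_le
      have a0 := norm_nonneg (g x y)
      have a1 := norm_nonneg (g x y - gN x y)
      have a2 := norm_nonneg (gN x y - g0 x y)
      have a3 := norm_nonneg (g0 x y)
      have h3 : ‖g x y‖ ^ 2 ≤ 3 * (‖g x y - gN x y‖ ^ 2 + ‖gN x y - g0 x y‖ ^ 2 +
          ‖g0 x y‖ ^ 2) := by
        have h4 := mul_self_le_mul_self a0 h1
        nlinarith [sq_nonneg (‖g x y - gN x y‖ - ‖gN x y - g0 x y‖),
          sq_nonneg (‖g x y - gN x y‖ - ‖g0 x y‖), sq_nonneg (‖gN x y - g0 x y‖ - ‖g0 x y‖)]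
      have h5 := mul_le_mul_of_nonneg_left h3 hη0.le
      linarith
    · have h6 : 0 ≤ η * ‖g x y - gN x y‖ ^ 2 := by positivity
      have h7 : 0 ≤ η * ‖gN x y - g0 x y‖ ^ 2 := by positivity
      linarith
  have hsplit : ∀ x, η * ∑ y, (if P x y then ‖Gr H (fun _ => η) x y‖ ^ 2 else 0) =
      ∑ y ∈ D, (if P x y then η * ‖g x y‖ ^ 2 else 0) +
        ∑ y ∈ Dᶜ, (if P x y then η * ‖g x y‖ ^ 2 else 0) := by
    intro x
    rw [Finset.sum_add_sum_compl, Finset.mul_sum]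
    refine Finset.sum_congr rfl fun y _ => ?_
    rw [mul_ite, mul_zero, hg]
  rw [Finset.sum_congr rfl fun x _ => hsplit x, Finset.sum_add_distrib, ← hS]
  have q1 : ∑ x ∈ Dᶜ, ∑ y ∈ D, (if P x y then η * ‖g x y‖ ^ 2 else 0) ≤ S := by
    refine le_trans (Finset.sum_le_sum fun x _ => Finset.sum_le_sum fun y _ => ?_) p1
    split_ifs
    · exact le_rfl
    · positivity
  have q2 : ∑ x ∈ Dᶜ, ∑ y ∈ Dᶜ, (if P x y then η * ‖g x y‖ ^ 2 else 0) ≤
      3 * (∑ x ∈ Dᶜ, ∑ y ∈ Dᶜ, η * ‖g x y - gN x y‖ ^ 2) +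
      3 * (∑ x ∈ Dᶜ, ∑ y ∈ Dᶜ, η * ‖gN x y - g0 x y‖ ^ 2) +
      3 * (∑ x ∈ Dᶜ, ∑ y ∈ Dᶜ, (if P x y then η * ‖g0 x y‖ ^ 2 else 0)) := by
    refine (Finset.sum_le_sum fun x _ => Finset.sum_le_sum fun y _ => key x y).trans
      (le_of_eq ?_)
    simp only [Finset.sum_add_distrib, Finset.mul_sum]
  linarith

/-- the diagonal of the true resolvent -/
theorem dia (H H₀ : Matrix X X ℝ) (k : X → ℝ) (D : Finset X)
    (η e₀ ε' c B : ℝ) (hH : ∀ x y, H x y = H y x) (hH₀ : Net H₀ k) (he : 0 < e₀) (hη : e₀ ≤ η)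
    (hoff : ∀ x y, x ≠ y → H x y = H₀ x y) (hε : ε' ≤ 1 / 2)
    (hd : ∀ x, |H x x - H₀ x x| + |(if x ∈ D then e₀ else η) - k x| ≤
      ε' * (Real.sqrt (if x ∈ D then e₀ else η) * Real.sqrt (k x))) (hc : 0 < c)
    (hB : ∀ y ∈ Dᶜ, 4 * c ≤ (Gr H₀ k y y).im ∧ (Gr H₀ k y y).im ≤ B) :
    (((Dᶜ).filter fun x => (Gr H (fun _ => η) x x).im < c ∨
      2 * B + c < (Gr H (fun _ => η) x x).im).card : ℝ) ≤
      (∑ b ∈ D, (Gr H (fun _ => η) b b).im) / (c / 2) := by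
  have hη0 : 0 < η := by linarith
  have hN : Net H (fun _ => η) := ⟨hH, fun _ => hη0⟩
  obtain ⟨κN, hκN⟩ : ∃ κN : X → ℝ, κN = fun x => if x ∈ D then e₀ else η := ⟨_, rfl⟩
  have hNN : Net H κN := ⟨hH, fun x => by
    rw [hκN]
    simp only
    split_ifs
    · exact he
    · exact hη0⟩
  have hd' : ∀ x, |H x x - H₀ x x| + |κN x - k x| ≤ ε' * (Real.sqrt (κN x) * Real.sqrt (k x)) :=
    fun x => by
      rw [hκN]
      exact hd x
  have hd'' : ∀ x, |H₀ x x - H x x| + |k x - κN x| ≤ ε' * (Real.sqrt (k x) * Real.sqrt (κN x)) :=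
    fun x => by
      rw [abs_sub_comm, abs_sub_comm (k x), mul_comm (Real.sqrt (k x))]
      exact hd' x
  have h1 := Pool.Agent.ACS.H72.tri hN hNN D (fun x hx => by
    rw [hκN]
    simp only
    rw [if_neg hx]) (fun b hb => by
    rw [hκN]
    simp only
    rw [if_pos hb]
    exact hη)
  have him : ∀ b, 0 ≤ (Gr H (fun _ => η) b b).im := fun b =>
    Pool.Agent.ACS.H48.im_nonneg hN b
  have h2 : ∑ x ∈ Dᶜ, ‖Gr H κN x x - Gr H (fun _ => η) x x‖ ≤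
      ∑ b ∈ D, (Gr H (fun _ => η) b b).im := by
    have e1 : ∑ x ∈ Dᶜ, η * ‖Gr H κN x x - Gr H (fun _ => η) x x‖ =
        η * ∑ x ∈ Dᶜ, ‖Gr H κN x x - Gr H (fun _ => η) x x‖ := by
      rw [Finset.mul_sum]
    have e2 : ∑ b ∈ D, (η - κN b) * (Gr H (fun _ => η) b b).im ≤
        η * ∑ b ∈ D, (Gr H (fun _ => η) b b).im := by
      rw [Finset.mul_sum]
      refine Finset.sum_le_sum fun b hb => mul_le_mul_of_nonneg_right ?_ (him b)
      have := hNN.pos b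
      linarith
    rw [e1] at h1
    exact le_of_mul_le_mul_left (h1.trans e2) hη0
  refine le_trans ?_ (markov (Dᶜ) (fun x => ‖Gr H κN x x - Gr H (fun _ => η) x x‖) (c / 2) _
    (by linarith) (fun x _ => norm_nonneg _) h2)
  have hsub : ((Dᶜ).filter fun x => (Gr H (fun _ => η) x x).im < c ∨
      2 * B + c < (Gr H (fun _ => η) x x).im) ⊆
      (Dᶜ).filter fun x => c / 2 < ‖Gr H κN x x - Gr H (fun _ => η) x x‖ := by
    intro x hx
    obtain ⟨hxD, hx'⟩ := Finset.mem_filter.1 hx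
    refine Finset.mem_filter.2 ⟨hxD, ?_⟩
    obtain ⟨g1, g2⟩ := hB x hxD
    have u1 := Pool.Agent.ACS.H48.ngn_im hH₀ hNN hε hoff hd' x
    have u2 := Pool.Agent.ACS.H48.ngn_im hNN hH₀ hε (fun a b hab => (hoff a b hab).symm) hd'' x
    have u3 := Complex.abs_im_le_norm (Gr H κN x x - Gr H (fun _ => η) x x)
    rw [Complex.sub_im] at u3
    have u4 := abs_le.1 (le_refl |(Gr H κN x x).im - (Gr H (fun _ => η) x x).im|)
    rcases hx' with h | h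
    · linarith [u4.2]
    · linarith [u4.1]
  exact_mod_cast Finset.card_le_card hsub

end Pool.Agent.QDA.H72
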