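import Pool.Agent.QDA.StmtsE
import Pool.Agent.Helper72_QDA.Tra
import Pool.Agent.Helper72_QDA.Shf
import Pool.Agent.Helper72_QDA.Dia
import Pool.Agent.Helper72_AHH.Gpa

/-!
# QDA, EDQ: the deterministic end on the torus
-/

set_option autoImplicit false

open scoped BigOperators ComplexConjugate NNReal

noncomputable section

namespace Pool.Agent.QDA.H72

open Pool.Agent.ANR (Net Gr)
open Pool.Agent.LTG (Tor Bd sT tT bon Box Fm qd mor LB UB)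
open Pool.Agent.AND2B (net kap Hr Vef res)
open Pool.Agent.ANP (Cfg)
open Pool.Agent.AHH (Al ww Ef gg)
open Pool.Agent.HSL14 (mat gr_sym mat_unit ward_diag)
open Pool.Agent.ACS.H48 (hr_off hr_diag hsym im_nonneg)

theorem card_tor (d μ : ℕ) : (Fintype.card (Tor d (2 ^ μ)) : ℝ) = ((2 : ℝ) ^ μ) ^ d := by
  have h : Fintype.card (Tor d (2 ^ μ)) = (2 ^ μ) ^ d := by
    simp [Tor, ZMod.card]
  rw [h]
  push_cast
  rfl

theorem mem_al {d M : ℕ} [NeZero M] (T : Cfg (Tor d M)) (x : Tor d M) :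
    x ∈ Al T ↔ ¬ (T.s x : ℝ) = 0 := by
  unfold Al
  rw [Finset.mem_filter]
  constructor
  · intro h h0
    have : T.s x = 0 := by exact_mod_cast h0
    rw [this] at h
    exact lt_irrefl _ h.2
  · intro h
    refine ⟨Finset.mem_univ _, pos_iff_ne_zero.2 fun h0 => h ?_⟩
    rw [h0]
    rfl

/-- the conductances -/
def cc {d M : ℕ} [NeZero M] (E e₀ : ℝ) (T : Cfg (Tor d M)) (D : Finset (Tor d M))
    (x y : Tor d M) : ℝ :=
  if x ∈ Dᶜ ∧ y ∈ Dᶜ then kap e₀ T x * kap e₀ T y * ‖net E e₀ T x y‖ ^ 2 else 0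

theorem net_sym {d M : ℕ} [NeZero M] (E e₀ : ℝ) (T : Cfg (Tor d M)) (x y : Tor d M) :
    net E e₀ T x y = net E e₀ T y x := gr_sym (hsym _ E) _ x y

theorem cc_sym {d M : ℕ} [NeZero M] (E e₀ : ℝ) (T : Cfg (Tor d M)) (D : Finset (Tor d M))
    (x y : Tor d M) : cc E e₀ T D x y = cc E e₀ T D y x := by
  unfold cc
  rw [net_sym E e₀ T x y]
  by_cases h : x ∈ Dᶜ ∧ y ∈ Dᶜ
  · rw [if_pos h, if_pos (And.intro h.2 h.1)]
    ring
  · rw [if_neg h, if_neg fun h' => h ⟨h'.2, h'.1⟩]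

theorem qd_cc {d M : ℕ} [NeZero M] (E e₀ : ℝ) (T : Cfg (Tor d M)) (D : Finset (Tor d M))
    (hD : Al T = Dᶜ) (f : Tor d M → ℝ) :
    qd (Ef E e₀ T) f = 1 / 2 * ∑ x, ∑ y, cc E e₀ T D x y * (f x - f y) ^ 2 := by
  unfold Ef
  rw [Pool.Agent.AHH.H72.qd_EE (net_sym E e₀ T), hD]
  congr 1
  refine Finset.sum_congr rfl fun x _ => Finset.sum_congr rfl fun y _ => ?_
  unfold cc
  rw [ite_mul, zero_mul]

open Classical in
/-- the analysis of one configuration, all constants explicit -/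
theorem core (hT : Tri2Stmt) (hNg : Ngn2Stmt) {d μ : ℕ} (j R : ℕ) (T : Cfg (Tor d (2 ^ μ)))
    (E e₀ f D₀ D₁ c₀ C₀ δ C₁ C₂ : ℝ) (m₀ : ℂ) (U : Tor d (2 ^ μ) → ℝ)
    (hU1 : ∀ (c : Matrix (Tor d (2 ^ μ)) (Tor d (2 ^ μ)) ℝ) (B : ℝ),
      (∀ x y, 0 ≤ c x y) → 0 ≤ B →
      (∀ h : Tor d (2 ^ μ) → ℝ,
        1 / 2 * ∑ x, ∑ y, c x y * (h x - h y) ^ 2 ≤ B * bon sT tT (fun _ => 1) h) →
      ∑ x, ∑ y, (if R ≤ ANP.H61.sd x y then c x y else 0) ≤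
        C₁ * B * ((2 : ℝ) ^ μ) ^ d / (R : ℝ) ^ 2)
    (hL1 : ∀ (c : Matrix (Tor d (2 ^ μ)) (Tor d (2 ^ μ)) ℝ)
      (A : Finset (Tor d (2 ^ μ))) (w : Tor d (2 ^ μ) → ℝ) (W W' b ε ν : ℝ),
      (∀ x y, 0 ≤ c x y) → (∀ x y, c x y = c y x) → (∀ x y, x ∉ A → c x y = 0) →
      0 < W' → (∀ x ∈ A, W' ≤ w x ∧ w x ≤ W) → 0 < b → 0 ≤ ε → ε ≤ 1 / 2 → 0 ≤ ν →
      (∀ x ∈ A, ∑ y, c x y ≤ (1 + ν) * w x) →
      (∀ f : Tor d (2 ^ μ) → ℝ, ∃ h : Tor d (2 ^ μ) → ℝ,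
        ∑ x ∈ A, w x / (1 + ε) * (f x - h x) ^ 2 + b * bon sT tT (fun _ => 1) h ≤
          1 / 2 * ∑ x, ∑ y, c x y * (f x - f y) ^ 2) →
      (((2 : ℝ) ^ μ) ^ d ≤ 2 * A.card) →
      ∑ x, ∑ y, (if ANP.H61.sd x y < 2 ^ j then c x y else 0) ≤
        C₂ * ((2 : ℝ) ^ μ) ^ d * W * (ε + ν + W * 4 ^ j / b + W / W' * ((2 : ℝ) ^ j / 2 ^ μ) ^ d))
    (hc₀ : 0 < c₀) (hc1 : c₀ ≤ 1) (hC₀ : 1 ≤ C₀) (hδ0 : 0 < δ) (hδ : 64 * δ ≤ c₀)
    (he : 0 < e₀) (hf : 0 < f) (hef : e₀ ≤ δ * f) (hm1 : c₀ ≤ m₀.im) (hm2 : ‖m₀‖ ≤ C₀)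
    (hs : ∀ x, (T.s x : ℝ) = 0 ∨ (T.s x : ℝ) = f)
    (hmb : ∀ x, (T.s x : ℝ) = f → ‖T.mb x - m₀‖ ≤ δ ∧ ‖net E e₀ T x x - T.mb x‖ ≤ δ)
    (hUV : ∀ x, U x = T.V x - (T.s x : ℝ) * m₀.re)
    (hFm : ∃ (εl εu : Tor d (2 ^ μ) → ℝ) (bl bu : Bd d (2 ^ μ) → ℝ),
      Fm sT tT (Al T) (ww e₀ T) εl εu bl bu (qd (Ef E e₀ T)) ∧
      (∀ x ∈ Al T, 0 ≤ εl x ∧ εl x ≤ δ) ∧ ∀ e, D₀ ≤ bl e ∧ bu e ≤ D₁)
    (hD₀ : 0 < D₀) (hD₁ : 0 ≤ D₁)
    (hDD : 2 * ((Finset.univ.filter fun x => (T.s x : ℝ) = 0).card : ℝ) ≤ ((2 : ℝ) ^ μ) ^ d) :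
    (∑ x ∈ (Finset.univ.filter fun x => (T.s x : ℝ) = 0)ᶜ,
      (f * m₀.im) * ∑ y, (if ANP.H61.sd x y < 2 ^ j then
        ‖Gr (Hr U E) (fun _ => f * m₀.im) x y‖ ^ 2 else 0) ≤
      7 * ∑ b ∈ Finset.univ.filter fun x => (T.s x : ℝ) = 0,
        (Gr (Hr U E) (fun _ => f * m₀.im) b b).im +
      3 * (((6 * δ / c₀) ^ 2 * (2 * C₀) + 4 * C₀ / (f * c₀ ^ 2) * (C₂ * (4 * f * C₀ ^ 2) *
        (δ + 2 * δ / c₀ + 4 * f * C₀ ^ 2 * 4 ^ j / D₀ +
          16 * C₀ ^ 2 / c₀ ^ 2 * ((2 : ℝ) ^ j / 2 ^ μ) ^ d))) * ((2 : ℝ) ^ μ) ^ d)) ∧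
    (∑ x ∈ (Finset.univ.filter fun x => (T.s x : ℝ) = 0)ᶜ,
      (f * m₀.im) * ∑ y, (if R ≤ ANP.H61.sd x y then
        ‖Gr (Hr U E) (fun _ => f * m₀.im) x y‖ ^ 2 else 0) ≤
      7 * ∑ b ∈ Finset.univ.filter fun x => (T.s x : ℝ) = 0,
        (Gr (Hr U E) (fun _ => f * m₀.im) b b).im +
      3 * (((6 * δ / c₀) ^ 2 * (2 * C₀) + 4 * C₀ / (f * c₀ ^ 2) * (C₁ * D₁ / (R : ℝ) ^ 2)) *
        ((2 : ℝ) ^ μ) ^ d)) ∧
    ((((Finset.univ.filter fun x => (T.s x : ℝ) = 0)ᶜ).filter fun x =>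
      (Gr (Hr U E) (fun _ => f * m₀.im) x x).im < c₀ / 16 ∨
      2 * (2 * C₀) + c₀ / 16 < (Gr (Hr U E) (fun _ => f * m₀.im) x x).im).card : ℝ) ≤
      (∑ b ∈ Finset.univ.filter fun x => (T.s x : ℝ) = 0,
        (Gr (Hr U E) (fun _ => f * m₀.im) b b).im) / (c₀ / 16 / 2) ∧
    ∀ ε₁ : ℝ, 0 < ε₁ → δ * (192 * C₀) ≤ c₀ * ε₁ →
      ((((Finset.univ.filter fun x => (T.s x : ℝ) = 0)ᶜ).filter fun x =>
        ε₁ / 2 < ‖Gr (Hr U E) (fun _ => f * m₀.im) x x - m₀‖).card : ℝ) ≤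
      (∑ b ∈ Finset.univ.filter fun x => (T.s x : ℝ) = 0,
        (Gr (Hr U E) (fun _ => f * m₀.im) b b).im) / (ε₁ / 4) := by
  obtain ⟨D, hD⟩ : ∃ D : Finset (Tor d (2 ^ μ)), D = Finset.univ.filter fun x => (T.s x : ℝ) = 0 :=
    ⟨_, rfl⟩
  rw [← hD] at hDD ⊢
  obtain ⟨η, hη⟩ : ∃ η : ℝ, η = f * m₀.im := ⟨_, rfl⟩
  rw [← hη]
  have hC0 : 0 < C₀ := by linarith
  have hmD : ∀ x, x ∈ D ↔ (T.s x : ℝ) = 0 := fun x => by rw [hD, Finset.mem_filter]; simp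
  have hAD : Al T = Dᶜ := by
    ext x
    rw [mem_al, Finset.mem_compl, hmD]
  have hmA : ∀ x ∈ Dᶜ, (T.s x : ℝ) = f := fun x hx =>
    (hs x).resolve_left fun h => Finset.mem_compl.1 hx ((hmD x).2 h)
  have him : m₀.im ≤ C₀ := (le_abs_self _).trans ((Complex.abs_im_le_norm _).trans hm2)
  have hδ1 : δ ≤ 1 / 64 := by linarith
  -- the gauge at the running sites
  have g1 : ∀ x ∈ Dᶜ, c₀ / 2 ≤ (T.mb x).im ∧ (T.mb x).im ≤ 2 * C₀ := fun x hx => by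
    obtain ⟨h1, -⟩ := hmb x (hmA x hx)
    have h2 := (Complex.abs_im_le_norm _).trans h1
    rw [Complex.sub_im] at h2
    obtain ⟨h3, h4⟩ := abs_le.1 h2
    constructor <;> linarith
  have g2 : ∀ x ∈ Dᶜ, |(net E e₀ T x x).im - (T.mb x).im| ≤ δ := fun x hx => by
    obtain ⟨-, h1⟩ := hmb x (hmA x hx)
    have h2 := (Complex.abs_im_le_norm _).trans h1
    rwa [Complex.sub_im] at h2
  have g3 : ∀ x ∈ Dᶜ, 4 * (c₀ / 16) ≤ (net E e₀ T x x).im ∧ (net E e₀ T x x).im ≤ 2 * C₀ :=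
    fun x hx => by
    obtain ⟨h1, h2⟩ := hmb x (hmA x hx)
    have h3 := (Complex.abs_im_le_norm _).trans h1
    rw [Complex.sub_im] at h3
    obtain ⟨h5, h6⟩ := abs_le.1 h3
    obtain ⟨h7, h8⟩ := abs_le.1 (g2 x hx)
    constructor <;> linarith
  have k1 : ∀ x ∈ Dᶜ, f * (c₀ / 2) ≤ kap e₀ T x ∧ kap e₀ T x ≤ 2 * f * C₀ := fun x hx => by
    obtain ⟨h1, h2⟩ := hmb x (hmA x hx)
    have h3 := (Complex.abs_im_le_norm _).trans h1
    rw [Complex.sub_im] at h3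
    obtain ⟨h5, h6⟩ := abs_le.1 h3
    obtain ⟨h7, h8⟩ := g1 x hx
    unfold kap
    rw [hmA x hx]
    constructor
    · have := mul_le_mul_of_nonneg_left h7 hf.le
      linarith
    · have h9 : (T.mb x).im ≤ 2 * C₀ - δ := by linarith
      have := mul_le_mul_of_nonneg_left h9 hf.le
      nlinarith
  have kpos : ∀ x, 0 < kap e₀ T x := fun x => by
    by_cases hx : x ∈ D
    · unfold kap
      rw [(hmD x).1 hx]
      linarith
    · exact lt_of_lt_of_le (by positivity) (k1 x (Finset.mem_compl.2 hx)).1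
  have hN₀ : Net (Hr (Vef T) E) (kap e₀ T) := ⟨hsym _ E, kpos⟩
  have hη1 : f * c₀ ≤ η := by
    rw [hη]
    exact mul_le_mul_of_nonneg_left hm1 hf.le
  have hη2 : η ≤ f * C₀ := by
    rw [hη]
    exact mul_le_mul_of_nonneg_left him hf.le
  have heη : 2 * e₀ ≤ η := by nlinarith
  have hη0 : 0 < η := by linarith
  -- the diagonals
  have hd : ∀ x, |Hr U E x x - Hr (Vef T) E x x| + |(if x ∈ D then e₀ else η) - kap e₀ T x| ≤
      6 * δ / c₀ * (Real.sqrt (if x ∈ D then e₀ else η) * Real.sqrt (kap e₀ T x)) := by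
    intro x
    have h0 : 0 ≤ 6 * δ / c₀ := by positivity
    rw [hr_diag, hUV x]
    by_cases hx : x ∈ D
    · rw [if_pos hx]
      have e1 : T.V x - (T.s x : ℝ) * m₀.re - Vef T x = 0 := by
        unfold Vef
        rw [(hmD x).1 hx]
        ring
      have e2 : e₀ - kap e₀ T x = 0 := by
        unfold kap
        rw [(hmD x).1 hx]
        ring
      rw [e1, e2, abs_zero, add_zero]
      exact mul_nonneg h0 (mul_nonneg (Real.sqrt_nonneg _) (Real.sqrt_nonneg _))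
    · rw [if_neg hx]
      have hx' := Finset.mem_compl.2 hx
      obtain ⟨h1, -⟩ := hmb x (hmA x hx')
      have e1 : |T.V x - (T.s x : ℝ) * m₀.re - Vef T x| ≤ f * δ := by
        unfold Vef
        rw [hmA x hx']
        have : T.V x - f * m₀.re - (T.V x - f * (T.mb x).re) = f * (T.mb x - m₀).re := by
          rw [Complex.sub_re]; ring
        rw [this, abs_mul, abs_of_pos hf]
        exact mul_le_mul_of_nonneg_left ((Complex.abs_re_le_norm _).trans h1) hf.le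
      have e2 : |η - kap e₀ T x| ≤ e₀ + f * δ := by
        unfold kap
        rw [hmA x hx', hη]
        have : f * m₀.im - (e₀ + f * (T.mb x).im) = -(e₀ + f * (T.mb x - m₀).im) := by
          rw [Complex.sub_im]; ring
        rw [this, abs_neg]
        refine (abs_add_le _ _).trans ?_
        rw [abs_of_pos he, abs_mul, abs_of_pos hf]
        have := mul_le_mul_of_nonneg_left ((Complex.abs_im_le_norm _).trans h1) hf.le
        linarith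
      have e3 : f * (c₀ / 2) ≤ Real.sqrt η * Real.sqrt (kap e₀ T x) := by
        have k2 : f * (c₀ / 2) ≤ η := by nlinarith
        have k0 : 0 ≤ f * (c₀ / 2) := by positivity
        calc f * (c₀ / 2) = Real.sqrt (f * (c₀ / 2)) * Real.sqrt (f * (c₀ / 2)) :=
              (Real.mul_self_sqrt k0).symm
          _ ≤ _ := mul_le_mul (Real.sqrt_le_sqrt k2) (Real.sqrt_le_sqrt (k1 x hx').1)
            (Real.sqrt_nonneg _) (Real.sqrt_nonneg _)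
      calc |T.V x - (T.s x : ℝ) * m₀.re - Vef T x| + |η - kap e₀ T x| ≤ f * δ + (e₀ + f * δ) :=
            add_le_add e1 e2
        _ ≤ 6 * δ / c₀ * (f * (c₀ / 2)) := by
            have : 6 * δ / c₀ * (f * (c₀ / 2)) = 3 * δ * f := by
              field_simp
              ring
            rw [this]
            linarith
        _ ≤ _ := mul_le_mul_of_nonneg_left e3 h0
  have hoff : ∀ x y : Tor d (2 ^ μ), x ≠ y → Hr U E x y = Hr (Vef T) E x y := fun x y h =>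
    hr_off _ _ E x y h
  -- the count of the sites
  have hcard : (Dᶜ.card : ℝ) = ((2 : ℝ) ^ μ) ^ d - D.card := by
    rw [Finset.card_compl, Nat.cast_sub (Finset.card_le_univ D), card_tor]
  have hcardle : (Dᶜ.card : ℝ) ≤ ((2 : ℝ) ^ μ) ^ d := by
    rw [hcard]
    have : (0 : ℝ) ≤ D.card := Nat.cast_nonneg _
    linarith
  have hΛ : ∀ x ∈ Dᶜ, ∀ y ∈ Dᶜ, η ≤ 4 * C₀ / (f * c₀ ^ 2) * (kap e₀ T x * kap e₀ T y) := by
    intro x hx y hy
    have h1 : (f * (c₀ / 2)) * (f * (c₀ / 2)) ≤ kap e₀ T x * kap e₀ T y :=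
      mul_le_mul (k1 x hx).1 (k1 y hy).1 (by positivity) (kpos x).le
    calc η ≤ f * C₀ := hη2
      _ = 4 * C₀ / (f * c₀ ^ 2) * ((f * (c₀ / 2)) * (f * (c₀ / 2))) := by
          field_simp
          ring
      _ ≤ _ := mul_le_mul_of_nonneg_left h1 (by positivity)
  have ha0 : 0 ≤ (6 * δ / c₀) ^ 2 * (2 * C₀) := by positivity
  have hΛ0 : 0 ≤ 4 * C₀ / (f * c₀ ^ 2) := by positivity
  obtain ⟨εl, εu, bl, bu, hF, hεl, hb⟩ := hFm
  rw [hAD] at hF hεl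
  have hcc0 : ∀ x y, 0 ≤ cc E e₀ T D x y := fun x y => by
    unfold cc
    split_ifs
    · exact mul_nonneg (mul_nonneg (kpos x).le (kpos y).le) (sq_nonneg _)
    · exact le_rfl
  refine ⟨?_, ?_, ?_, ?_⟩
  · -- near
    have h1 := trans hT hNg (Hr U E) (Hr (Vef T) E) (kap e₀ T) D η e₀ (6 * δ / c₀) (2 * C₀)
      (4 * C₀ / (f * c₀ ^ 2)) (hsym U E) hN₀ he heη hoff hd (fun y hy => (g3 y hy).2) hΛ
      (fun x y => ANP.H61.sd x y < 2 ^ j)
    refine h1.trans ?_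
    have h2 := hL1 (cc E e₀ T D) (Dᶜ) (ww e₀ T) (4 * f * C₀ ^ 2) (f * c₀ ^ 2 / 4) D₀ δ
      (2 * δ / c₀) hcc0 (cc_sym E e₀ T D) (fun x y hx => by
        unfold cc
        rw [if_neg fun h => hx h.1]) (by positivity) (fun x hx => by
        obtain ⟨a1, a2⟩ := g1 x hx
        obtain ⟨b1, b2⟩ := k1 x hx
        unfold ww gg
        constructor
        · calc f * c₀ ^ 2 / 4 = (f * (c₀ / 2)) * (c₀ / 2) := by ring
            _ ≤ _ := mul_le_mul b1 a1 (by positivity) (kpos x).le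
        · calc kap e₀ T x * (T.mb x).im ≤ (2 * f * C₀) * (2 * C₀) :=
                mul_le_mul b2 a2 (by linarith) (by positivity)
            _ = _ := by ring) hD₀ hδ0.le (by linarith) (by positivity) (fun x hx => by
        obtain ⟨a1, a2⟩ := g1 x hx
        obtain ⟨a3, a4⟩ := abs_le.1 (g2 x hx)
        have e1 : ∑ y, cc E e₀ T D x y ≤ kap e₀ T x * (net E e₀ T x x).im := by
          have e2 := ward_diag hN₀.sym (mat_unit hN₀) x
          have e3 : (net E e₀ T x x).im = ∑ y, kap e₀ T y * ‖net E e₀ T x y‖ ^ 2 := e2.symm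
          rw [e3, Finset.mul_sum]
          refine Finset.sum_le_sum fun y _ => ?_
          unfold cc
          split_ifs
          · rw [mul_assoc]
          · exact mul_nonneg (kpos x).le (mul_nonneg (kpos y).le (sq_nonneg _))
        refine e1.trans ?_
        unfold ww gg
        have e4 : (net E e₀ T x x).im ≤ (1 + 2 * δ / c₀) * (T.mb x).im := by
          have e5 : δ ≤ 2 * δ / c₀ * (T.mb x).im := by
            calc δ = 2 * δ / c₀ * (c₀ / 2) := by field_simp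
              _ ≤ _ := mul_le_mul_of_nonneg_left a1 (by positivity)
          linarith
        have e6 := mul_le_mul_of_nonneg_left e4 (kpos x).le
        linarith) (fun g => by
        obtain ⟨h, hh⟩ := hF.lb g
        refine ⟨h, ?_⟩
        rw [← qd_cc E e₀ T D hAD]
        refine le_trans ?_ hh
        unfold mor
        refine add_le_add ?_ ?_
        · rw [← Finset.sum_subset (Finset.subset_univ (Dᶜ)) (fun x _ hx => by
            unfold Pool.Agent.LTG.wl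
            rw [if_neg hx, zero_mul])]
          refine Finset.sum_le_sum fun x hx => ?_
          unfold Pool.Agent.LTG.wl
          rw [if_pos hx]
          refine mul_le_mul_of_nonneg_right ?_ (sq_nonneg _)
          obtain ⟨l1, l2⟩ := hεl x hx
          have hw0 : 0 ≤ ww e₀ T x := by
            unfold ww gg
            have := (g1 x hx).1
            exact mul_nonneg (kpos x).le (by linarith)
          exact div_le_div_of_nonneg_left hw0 (by linarith) (by linarith)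
        · unfold bon
          rw [Finset.mul_sum]
          refine Finset.sum_le_sum fun e _ => ?_
          rw [one_mul]
          exact mul_le_mul_of_nonneg_right (hb e).1 (sq_nonneg _)) (by
        rw [hcard]
        linarith)
    have h3 : 4 * f * C₀ ^ 2 / (f * c₀ ^ 2 / 4) = 16 * C₀ ^ 2 / c₀ ^ 2 := by
      field_simp
      ring
    rw [h3] at h2
    have h4 : ∑ x, ∑ y, (if ANP.H61.sd x y < 2 ^ j then
        (if x ∈ Dᶜ ∧ y ∈ Dᶜ then kap e₀ T x * kap e₀ T y *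
          ‖Gr (Hr (Vef T) E) (kap e₀ T) x y‖ ^ 2 else 0) else 0) =
        ∑ x, ∑ y, (if ANP.H61.sd x y < 2 ^ j then cc E e₀ T D x y else 0) := rfl
    rw [h4]
    have h5 := mul_le_mul_of_nonneg_left h2 hΛ0
    have h6 := mul_le_mul_of_nonneg_left hcardle ha0
    have h7 : 4 * C₀ / (f * c₀ ^ 2) * (C₂ * ((2 : ℝ) ^ μ) ^ d * (4 * f * C₀ ^ 2) *
        (δ + 2 * δ / c₀ + 4 * f * C₀ ^ 2 * 4 ^ j / D₀ +
          16 * C₀ ^ 2 / c₀ ^ 2 * ((2 : ℝ) ^ j / 2 ^ μ) ^ d)) =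
        4 * C₀ / (f * c₀ ^ 2) * (C₂ * (4 * f * C₀ ^ 2) *
        (δ + 2 * δ / c₀ + 4 * f * C₀ ^ 2 * 4 ^ j / D₀ +
          16 * C₀ ^ 2 / c₀ ^ 2 * ((2 : ℝ) ^ j / 2 ^ μ) ^ d)) * ((2 : ℝ) ^ μ) ^ d := by ring
    rw [h7] at h5
    linarith
  · -- far
    have h1 := trans hT hNg (Hr U E) (Hr (Vef T) E) (kap e₀ T) D η e₀ (6 * δ / c₀) (2 * C₀)
      (4 * C₀ / (f * c₀ ^ 2)) (hsym U E) hN₀ he heη hoff hd (fun y hy => (g3 y hy).2) hΛ
      (fun x y => R ≤ ANP.H61.sd x y)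
    refine h1.trans ?_
    have h2 := hU1 (cc E e₀ T D) D₁ hcc0 hD₁ (fun h => by
      rw [← qd_cc E e₀ T D hAD]
      refine (hF.ub h h).trans ?_
      unfold mor
      have e1 : ∑ x, Pool.Agent.LTG.wu (Dᶜ) (ww e₀ T) εu x * (h x - h x) ^ 2 = 0 := by
        refine Finset.sum_eq_zero fun x _ => ?_
        ring
      rw [e1, zero_add]
      unfold bon
      rw [Finset.mul_sum]
      refine Finset.sum_le_sum fun e _ => ?_
      rw [one_mul]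
      exact mul_le_mul_of_nonneg_right (hb e).2 (sq_nonneg _))
    have h4 : ∑ x, ∑ y, (if R ≤ ANP.H61.sd x y then
        (if x ∈ Dᶜ ∧ y ∈ Dᶜ then kap e₀ T x * kap e₀ T y *
          ‖Gr (Hr (Vef T) E) (kap e₀ T) x y‖ ^ 2 else 0) else 0) =
        ∑ x, ∑ y, (if R ≤ ANP.H61.sd x y then cc E e₀ T D x y else 0) := rfl
    rw [h4]
    have h5 := mul_le_mul_of_nonneg_left h2 hΛ0
    have h6 := mul_le_mul_of_nonneg_left hcardle ha0
    have h7 : 4 * C₀ / (f * c₀ ^ 2) * (C₁ * D₁ * ((2 : ℝ) ^ μ) ^ d / (R : ℝ) ^ 2) =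
        4 * C₀ / (f * c₀ ^ 2) * (C₁ * D₁ / (R : ℝ) ^ 2) * ((2 : ℝ) ^ μ) ^ d := by ring
    rw [h7] at h5
    linarith
  · exact dia (Hr U E) (Hr (Vef T) E) (kap e₀ T) D η e₀ (6 * δ / c₀) (c₀ / 16) (2 * C₀)
      (hsym U E) hN₀ he (by linarith) hoff (by
        rw [div_le_iff₀ hc₀]
        linarith) hd (by positivity) g3
  · intro ε₁ hε₁ h1
    have h2 : 16 * δ ≤ ε₁ := by
      have h3 : δ * (192 * 1) ≤ δ * (192 * C₀) := by gcongr
      have h4 : c₀ * ε₁ ≤ 1 * ε₁ := by gcongr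
      linarith
    exact dia2 (Hr U E) (Hr (Vef T) E) (kap e₀ T) D η e₀ (6 * δ / c₀) (2 * C₀) ε₁ m₀
      (hsym U E) hN₀ he (by linarith) hoff (by positivity) (by
        rw [div_le_iff₀ hc₀]
        linarith) hd hε₁ (fun y hy => (g3 y hy).2) (fun y hy => by
        obtain ⟨h5, h6⟩ := hmb y (hmA y hy)
        have e1 : Gr (Hr (Vef T) E) (kap e₀ T) y y - m₀ =
            (net E e₀ T y y - T.mb y) + (T.mb y - m₀) := by
          have : net E e₀ T y y = Gr (Hr (Vef T) E) (kap e₀ T) y y := rfl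
          rw [← this]
          ring
        rw [e1]
        refine (norm_add_le _ _).trans ?_
        linarith) (by
        have e2 : 6 * δ / c₀ * (2 * (2 * C₀)) = δ * (192 * C₀) / (8 * c₀) := by
          field_simp
          ring
        rw [e2, div_le_iff₀ (by positivity)]
        linarith)

open Classical in
/-- the deterministic end, all the alternatives at once -/
theorem edx (hT : Tri2Stmt) (hNg : Ngn2Stmt) (hUP : UpfStmt) (hLO : LofStmt) (d : ℕ) (c₀ C₀ ε : ℝ)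
    (hd : 3 ≤ d) (hc₀ : 0 < c₀) (hc1 : c₀ ≤ 1) (hC₀ : 1 ≤ C₀) (hε : 0 < ε) :
    ∃ K δ : ℝ, 1 ≤ K ∧ 0 < δ ∧
    ∀ (μ j R : ℕ) (T : Cfg (Tor d (2 ^ μ))) (E e₀ f D₀ D₁ : ℝ) (m₀ : ℂ) (U : Tor d (2 ^ μ) → ℝ),
    0 < e₀ → 0 < f → e₀ ≤ δ * f → c₀ ≤ m₀.im → ‖m₀‖ ≤ C₀ →
    (∀ x, (T.s x : ℝ) = 0 ∨ (T.s x : ℝ) = f) →
    (∀ x, (T.s x : ℝ) = f → ‖T.mb x - m₀‖ ≤ δ ∧ ‖net E e₀ T x x - T.mb x‖ ≤ δ) →
    (∀ x, (T.s x : ℝ) = f → U x = T.V x - f * m₀.re) →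
    (∀ x, (T.s x : ℝ) = 0 → |U x - T.V x| ≤ C₀ * f) →
    (∃ (εl εu : Tor d (2 ^ μ) → ℝ) (bl bu : Bd d (2 ^ μ) → ℝ),
      Fm sT tT (Al T) (ww e₀ T) εl εu bl bu (qd (Ef E e₀ T)) ∧
      (∀ x ∈ Al T, 0 ≤ εl x ∧ εl x ≤ δ) ∧ ∀ e, D₀ ≤ bl e ∧ bu e ≤ D₁) →
    0 < D₀ → j + 1 ≤ μ → 1 ≤ R → K * f * 4 ^ j ≤ D₀ → K * 2 ^ j ≤ 2 ^ μ → K * D₁ ≤ f * R ^ 2 →
    2 * ((Finset.univ.filter fun x => (T.s x : ℝ) = 0).card : ℝ) ≤ ((2 : ℝ) ^ μ) ^ d →
    ((((Finset.univ.filter fun x => (T.s x : ℝ) = 0)ᶜ).filter fun x =>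
      Bad U E (f * m₀.im) (1 / K) ε (2 ^ j) R x ∨
      ε < ‖Gt U E (f * m₀.im) x x - m₀‖).card : ℝ) ≤
      ε * ((2 : ℝ) ^ μ) ^ d +
        K * ∑ b ∈ Finset.univ.filter fun x => (T.s x : ℝ) = 0, (Gt U E (f * m₀.im) b b).im := by
  obtain ⟨C₁, hC₁, hU⟩ := hUP d (by omega)
  obtain ⟨C₂, hC₂, hL⟩ := hLO d hd
  have hC0 : 0 < C₀ := by linarith
  have hC1 : 0 < C₁ := by linarith
  have hC2 : 0 < C₂ := by linarith
  obtain ⟨a, ha⟩ : ∃ a : ℝ, a = ε ^ 2 / 48 := ⟨_, rfl⟩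
  have ha0 : 0 < a := by rw [ha]; positivity
  -- the constants
  obtain ⟨δ, hδ⟩ : ∃ δ : ℝ, δ = min (min (c₀ / 64) (c₀ * ε / (192 * C₀)))
    (min (a * c₀ ^ 2 / (72 * C₀)) (a * c₀ ^ 3 / (96 * C₂ * C₀ ^ 3))) := ⟨_, rfl⟩
  have hδ0 : 0 < δ := by
    rw [hδ]
    exact lt_min (lt_min (by positivity) (by positivity)) (lt_min (by positivity) (by positivity))
  have hδ1 : 64 * δ ≤ c₀ := by
    have : δ ≤ c₀ / 64 := by rw [hδ]; exact (min_le_left _ _).trans (min_le_left _ _)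
    linarith
  have hδ4 : δ * (192 * C₀) ≤ c₀ * ε := by
    have : δ ≤ c₀ * ε / (192 * C₀) := by
      rw [hδ]
      exact (min_le_left _ _).trans (min_le_right _ _)
    rwa [le_div_iff₀ (by positivity)] at this
  have hδ2 : δ * (72 * C₀) ≤ a * c₀ ^ 2 := by
    have : δ ≤ a * c₀ ^ 2 / (72 * C₀) := by
      rw [hδ]
      exact (min_le_right _ _).trans (min_le_left _ _)
    rwa [le_div_iff₀ (by positivity)] at this
  have hδ3 : δ * (96 * C₂ * C₀ ^ 3) ≤ a * c₀ ^ 3 := by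
    have : δ ≤ a * c₀ ^ 3 / (96 * C₂ * C₀ ^ 3) := by
      rw [hδ]
      exact (min_le_right _ _).trans (min_le_right _ _)
    rwa [le_div_iff₀ (by positivity)] at this
  obtain ⟨ρ, hρ⟩ : ∃ ρ : ℝ, ρ = C₀ / c₀ := ⟨_, rfl⟩
  have hρ0 : 0 < ρ := by rw [hρ]; positivity
  obtain ⟨τ, hτ⟩ : ∃ τ : ℝ, τ = min (c₀ / 32) (ε / 2) := ⟨_, rfl⟩
  have hτ0 : 0 < τ := by rw [hτ]; exact lt_min (by positivity) (by positivity)
  have hτ1 : τ ≤ c₀ / 32 := by rw [hτ]; exact min_le_left _ _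
  have hτ2 : τ ≤ ε / 2 := by rw [hτ]; exact min_le_right _ _
  obtain ⟨L₀, hL₀⟩ : ∃ L₀ : ℝ, L₀ = 32 / c₀ * (2 + 2 * ρ ^ 2) +
    ρ / 2 * (3 + 2 * ρ ^ 2) / τ + 2 * ((28 + 30 * ρ ^ 2) / ε) + 4 / ε * (2 + 2 * ρ ^ 2) :=
    ⟨_, rfl⟩
  obtain ⟨K, hK⟩ : ∃ K : ℝ, K = 1 + 32 / c₀ + 5 * C₀ + 640 * C₂ * C₀ ^ 5 / (c₀ ^ 4 * a) +
    4 * C₀ * C₁ / (c₀ ^ 2 * a) + L₀ := ⟨_, rfl⟩
  have t1 : 0 < 32 / c₀ := by positivity
  have t2 : 0 < 640 * C₂ * C₀ ^ 5 / (c₀ ^ 4 * a) := by positivity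
  have t3 : 0 < 4 * C₀ * C₁ / (c₀ ^ 2 * a) := by positivity
  have t4 : 0 < L₀ := by rw [hL₀]; positivity
  have hK1 : 1 ≤ K := by rw [hK]; linarith
  have hK0 : 0 < K := by linarith
  have hK2 : 1 / K ≤ c₀ / 32 := by
    rw [div_le_iff₀ hK0]
    have h1 : 32 / c₀ ≤ K := by rw [hK]; linarith
    calc 1 = c₀ / 32 * (32 / c₀) := by field_simp
      _ ≤ _ := mul_le_mul_of_nonneg_left h1 (by positivity)
  have hK3 : 5 * C₀ ≤ K := by rw [hK]; linarith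
  have hK4 : 640 * C₂ * C₀ ^ 5 ≤ K * (c₀ ^ 4 * a) := by
    have h1 : 640 * C₂ * C₀ ^ 5 / (c₀ ^ 4 * a) ≤ K := by rw [hK]; linarith
    rwa [div_le_iff₀ (by positivity)] at h1
  have hK5 : 4 * C₀ * C₁ ≤ K * (c₀ ^ 2 * a) := by
    have h1 : 4 * C₀ * C₁ / (c₀ ^ 2 * a) ≤ K := by rw [hK]; linarith
    rwa [div_le_iff₀ (by positivity)] at h1
  have hK6 : L₀ ≤ K := by rw [hK]; linarith
  refine ⟨K, δ, hK1, hδ0, ?_⟩
  intro μ j R T E e₀ f D₀ D₁ m₀ U he hf hef hm1 hm2 hs hmb hUr hUd hFm hD₀ hj hR q1 q2 q3 hDD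
  have hN0 : 0 < ((2 : ℝ) ^ μ) ^ d := by positivity
  obtain ⟨N, hN⟩ : ∃ N : ℝ, N = ((2 : ℝ) ^ μ) ^ d := ⟨_, rfl⟩
  have hD₁ : 0 ≤ D₁ := by
    obtain ⟨εl, εu, bl, bu, hF, -, hb⟩ := hFm
    by_contra hneg
    push Not at hneg
    -- a function with a nonzero bond energy
    obtain ⟨i⟩ : Nonempty (Fin d) := ⟨⟨0, by omega⟩⟩
    obtain ⟨h, hh⟩ : ∃ h : Tor d (2 ^ μ) → ℝ, h = fun x => if x = 0 then 1 else 0 := ⟨_, rfl⟩
    have hq : 0 ≤ qd (Ef E e₀ T) h := by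
      unfold Ef
      rw [Pool.Agent.AHH.H72.qd_EE (net_sym E e₀ T)]
      refine mul_nonneg (by norm_num) (Finset.sum_nonneg fun x _ => Finset.sum_nonneg fun y _ => ?_)
      split_ifs with hxy
      · have h1 : ∀ z, z ∈ Al T → 0 ≤ kap e₀ T z := fun z hz => by
          have h2 : (T.s z : ℝ) = f := (hs z).resolve_left ((mem_al T z).1 hz)
          obtain ⟨h3, -⟩ := hmb z h2
          have h4 := (Complex.abs_im_le_norm _).trans h3
          rw [Complex.sub_im] at h4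
          have h5 := (abs_le.1 h4).1
          unfold kap
          rw [h2]
          have h6 : 0 ≤ (T.mb z).im := by linarith
          have := mul_nonneg hf.le h6
          linarith
        exact mul_nonneg (mul_nonneg (mul_nonneg (h1 x hxy.1) (h1 y hxy.2)) (sq_nonneg _))
          (sq_nonneg _)
      · exact le_rfl
    have hu := hF.ub h h
    unfold mor at hu
    have e1 : ∑ x, Pool.Agent.LTG.wu (Al T) (ww e₀ T) εu x * (h x - h x) ^ 2 = 0 := by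
      refine Finset.sum_eq_zero fun x _ => ?_
      ring
    rw [e1, zero_add] at hu
    have hlt : bon sT tT bu h < 0 := by
      unfold bon
      refine Finset.sum_neg' (fun e _ => ?_) ⟨(i, 0), Finset.mem_univ _, ?_⟩
      · have := (hb e).2
        exact mul_nonpos_of_nonpos_of_nonneg (by linarith) (sq_nonneg _)
      · have h1 := (hb (i, 0)).2
        refine mul_neg_of_neg_of_pos (by linarith) ?_
        have h2 : tT ((i, 0) : Bd d (2 ^ μ)) ≠ 0 := by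
          unfold tT
          simp only [zero_add]
          intro h0
          have h3 := congrFun h0 i
          rw [Pi.single_eq_same, Pi.zero_apply] at h3
          have h4 : Fact (1 < 2 ^ μ) := ⟨Nat.one_lt_two_pow (by omega)⟩
          exact one_ne_zero h3
        have h5 : sT ((i, 0) : Bd d (2 ^ μ)) = 0 := rfl
        rw [hh]
        simp only
        rw [if_neg h2, h5, if_pos rfl]
        norm_num
    linarith
  obtain ⟨U₂, hU₂⟩ : ∃ U₂ : Tor d (2 ^ μ) → ℝ, U₂ = fun x => T.V x - (T.s x : ℝ) * m₀.re :=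
    ⟨_, rfl⟩
  have hUV : ∀ x, U₂ x = T.V x - (T.s x : ℝ) * m₀.re := fun x => by rw [hU₂]
  obtain ⟨r1, r2, r3, r5⟩ := core hT hNg j R T E e₀ f D₀ D₁ c₀ C₀ δ C₁ C₂ m₀ U₂
    (fun c B h1 h2 h3 => by
      have := hU (2 ^ μ) c B h1 h2 h3 R hR
      push_cast at this
      exact this)
    (fun c A w W W' b ε ν => hL μ j c A w W W' b ε ν hj)
    hc₀ hc1 hC₀ hδ0 hδ1 he hf hef hm1 hm2 hs hmb hUV hFm hD₀ hD₁ hDD
  obtain ⟨D, hD⟩ : ∃ D : Finset (Tor d (2 ^ μ)), D = Finset.univ.filter fun x => (T.s x : ℝ) = 0 :=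
    ⟨_, rfl⟩
  obtain ⟨η, hη⟩ : ∃ η : ℝ, η = f * m₀.im := ⟨_, rfl⟩
  obtain ⟨S, hS⟩ : ∃ S : ℝ, S = ∑ b ∈ D, (Gr (Hr U E) (fun _ => η) b b).im := ⟨_, rfl⟩
  obtain ⟨S₂, hS₂⟩ : ∃ S₂ : ℝ, S₂ = ∑ b ∈ D, (Gr (Hr U₂ E) (fun _ => η) b b).im := ⟨_, rfl⟩
  rw [← hD, ← hη, ← hS₂, ← hN] at r1 r2
  rw [← hD, ← hη, ← hS₂] at r3
  have r5 := r5 ε hε hδ4
  rw [← hD, ← hη, ← hS₂] at r5
  have hη0 : 0 < η := by rw [hη]; exact mul_pos hf (by linarith)
  -- the numbers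
  have n1 : (6 * δ / c₀) ^ 2 * (2 * C₀) ≤ a := by
    have h1 : (6 * δ / c₀) ^ 2 * (2 * C₀) = δ * (δ * (72 * C₀)) / c₀ ^ 2 := by
      field_simp
      ring
    rw [h1, div_le_iff₀ (by positivity)]
    have h2 : δ * (δ * (72 * C₀)) ≤ 1 * (δ * (72 * C₀)) :=
      mul_le_mul_of_nonneg_right (by linarith) (by positivity)
    linarith
  have n2 : 4 * C₀ / (f * c₀ ^ 2) * (C₁ * D₁ / (R : ℝ) ^ 2) ≤ a := by
    have hR0 : (0 : ℝ) < R := by exact_mod_cast hR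
    have h1 : D₁ / (R : ℝ) ^ 2 ≤ f / K := by
      rw [div_le_div_iff₀ (by positivity) hK0]
      linarith
    calc 4 * C₀ / (f * c₀ ^ 2) * (C₁ * D₁ / (R : ℝ) ^ 2) =
          4 * C₀ * C₁ / (f * c₀ ^ 2) * (D₁ / (R : ℝ) ^ 2) := by ring
      _ ≤ 4 * C₀ * C₁ / (f * c₀ ^ 2) * (f / K) := mul_le_mul_of_nonneg_left h1 (by positivity)
      _ = 4 * C₀ * C₁ / (K * c₀ ^ 2) := by field_simp
      _ ≤ a := by
          rw [div_le_iff₀ (by positivity)]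
          linarith
  have n3 : 4 * C₀ / (f * c₀ ^ 2) * (C₂ * (4 * f * C₀ ^ 2) *
        (δ + 2 * δ / c₀ + 4 * f * C₀ ^ 2 * 4 ^ j / D₀ +
          16 * C₀ ^ 2 / c₀ ^ 2 * ((2 : ℝ) ^ j / 2 ^ μ) ^ d)) ≤ a := by
    have h1 : 4 * f * C₀ ^ 2 * 4 ^ j / D₀ ≤ 4 * C₀ ^ 2 / (K * c₀ ^ 2) := by
      rw [div_le_div_iff₀ hD₀ (by positivity)]
      have h2 : f * 4 ^ j * K ≤ D₀ := by linarith
      have h3 : c₀ ^ 2 ≤ 1 := by nlinarith
      calc 4 * f * C₀ ^ 2 * 4 ^ j * (K * c₀ ^ 2) = (4 * C₀ ^ 2) * (f * 4 ^ j * K) * c₀ ^ 2 := by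
            ring
        _ ≤ (4 * C₀ ^ 2) * (f * 4 ^ j * K) * 1 :=
            mul_le_mul_of_nonneg_left h3 (by positivity)
        _ ≤ (4 * C₀ ^ 2) * D₀ := by
            rw [mul_one]
            exact mul_le_mul_of_nonneg_left h2 (by positivity)
        _ = _ := by ring
    have h4 : ((2 : ℝ) ^ j / 2 ^ μ) ^ d ≤ 1 / K := by
      have h5 : (2 : ℝ) ^ j / 2 ^ μ ≤ 1 / K := by
        rw [div_le_div_iff₀ (by positivity) hK0]
        linarith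
      have h6 : (2 : ℝ) ^ j / 2 ^ μ ≤ 1 := h5.trans (by
        rw [div_le_one hK0]
        exact hK1)
      refine le_trans ?_ h5
      exact pow_le_of_le_one (by positivity) h6 (by omega)
    have h7 : 16 * C₀ ^ 2 / c₀ ^ 2 * ((2 : ℝ) ^ j / 2 ^ μ) ^ d ≤ 16 * C₀ ^ 2 / (K * c₀ ^ 2) := by
      calc _ ≤ 16 * C₀ ^ 2 / c₀ ^ 2 * (1 / K) := mul_le_mul_of_nonneg_left h4 (by positivity)
        _ = _ := by field_simp
    have h8 : δ ≤ δ / c₀ := by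
      rw [le_div_iff₀ hc₀]
      nlinarith
    have h9 : δ + 2 * δ / c₀ + 4 * f * C₀ ^ 2 * 4 ^ j / D₀ +
          16 * C₀ ^ 2 / c₀ ^ 2 * ((2 : ℝ) ^ j / 2 ^ μ) ^ d ≤
        3 * (δ / c₀) + 20 * C₀ ^ 2 / (K * c₀ ^ 2) := by
      have e1 : 2 * δ / c₀ = 2 * (δ / c₀) := by ring
      have e2 : 4 * C₀ ^ 2 / (K * c₀ ^ 2) + 16 * C₀ ^ 2 / (K * c₀ ^ 2) =
          20 * C₀ ^ 2 / (K * c₀ ^ 2) := by ring
      linarith
    calc _ ≤ 4 * C₀ / (f * c₀ ^ 2) * (C₂ * (4 * f * C₀ ^ 2) *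
          (3 * (δ / c₀) + 20 * C₀ ^ 2 / (K * c₀ ^ 2))) :=
          mul_le_mul_of_nonneg_left (mul_le_mul_of_nonneg_left h9 (by positivity)) (by positivity)
      _ = δ * (96 * C₂ * C₀ ^ 3) / (2 * c₀ ^ 3) + 640 * C₂ * C₀ ^ 5 / (2 * (K * c₀ ^ 4)) := by
          field_simp
          ring
      _ ≤ a / 2 + a / 2 := by
          refine add_le_add ?_ ?_
          · rw [div_le_iff₀ (by positivity)]
            linarith
          · rw [div_le_iff₀ (by positivity)]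
            linarith
      _ = a := by ring
  -- the shift at the dead sites
  have hmD : ∀ x, x ∈ D ↔ (T.s x : ℝ) = 0 := fun x => by rw [hD, Finset.mem_filter]; simp
  have hη1 : f * c₀ ≤ η := by
    rw [hη]
    exact mul_le_mul_of_nonneg_left hm1 hf.le
  have hρη : C₀ * f ≤ ρ * η := by
    calc C₀ * f = ρ * (f * c₀) := by rw [hρ]; field_simp
      _ ≤ _ := mul_le_mul_of_nonneg_left hη1 hρ0.le
  obtain ⟨s1, s2, s3⟩ := shift (Hr U E) (Hr U₂ E) D η ρ (fun x => U x - U₂ x) (hsym U E)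
    (hsym U₂ E) hη0 hρ0.le (fun x hx => by
      have h1 : (T.s x : ℝ) = f := (hs x).resolve_left fun h => hx ((hmD x).2 h)
      rw [hUr x h1, hUV x, h1]
      ring) (fun x => by
      by_cases hx : x ∈ D
      · have h1 := (hmD x).1 hx
        refine (le_of_eq ?_).trans ((hUd x h1).trans hρη)
        rw [hUV x, h1]
        congr 1
        ring
      · have h1 : (T.s x : ℝ) = f := (hs x).resolve_left fun h => hx ((hmD x).2 h)
        rw [hUr x h1, hUV x, h1, sub_self, abs_zero]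
        positivity) (fun x y => by
      by_cases h : x = y
      · rw [← h, if_pos rfl]
        have := hr_diag U U₂ E x
        linarith
      · rw [if_neg h, add_zero]
        exact hr_off _ _ E x y h)
  have hS0 : 0 ≤ S := by
    rw [hS]
    refine Finset.sum_nonneg fun b _ => im_nonneg ⟨hsym U E, fun _ => hη0⟩ b
  have hS₂S : S₂ ≤ (2 + 2 * ρ ^ 2) * S := by
    rw [hS₂, hS, Finset.mul_sum]
    exact Finset.sum_le_sum fun b _ => s1 b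
  rw [← hS] at s2 s3
  have hN0' : 0 ≤ N := by rw [hN]; exact hN0.le
  -- the sums for the true resolvent
  have hgen : ∀ P : Tor d (2 ^ μ) → Tor d (2 ^ μ) → Prop,
      ∑ x ∈ Dᶜ, η * ∑ y, (if P x y then ‖Gr (Hr U₂ E) (fun _ => η) x y‖ ^ 2 else 0) ≤
        7 * S₂ + 6 * a * N →
      ∑ x ∈ Dᶜ, η * ∑ y, (if P x y then ‖Gr (Hr U E) (fun _ => η) x y‖ ^ 2 else 0) ≤
        (28 + 30 * ρ ^ 2) * S + 12 * a * N := by
    intro P hP
    have e1 : ∀ x, η * ∑ y, (if P x y then ‖Gr (Hr U E) (fun _ => η) x y‖ ^ 2 else 0) ≤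
        2 * (η * ∑ y, (if P x y then ‖Gr (Hr U₂ E) (fun _ => η) x y‖ ^ 2 else 0)) +
        2 * ∑ y, η * ‖Gr (Hr U E) (fun _ => η) x y - Gr (Hr U₂ E) (fun _ => η) x y‖ ^ 2 := by
      intro x
      rw [Finset.mul_sum, Finset.mul_sum, Finset.mul_sum, Finset.mul_sum,
        ← Finset.sum_add_distrib]
      refine Finset.sum_le_sum fun y _ => ?_
      obtain ⟨g, hg⟩ : ∃ g, g = Gr (Hr U E) (fun _ => η) x y := ⟨_, rfl⟩
      obtain ⟨g', hg'⟩ : ∃ g, g = Gr (Hr U₂ E) (fun _ => η) x y := ⟨_, rfl⟩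
      rw [← hg, ← hg']
      have e2 : ‖g‖ ^ 2 ≤ 2 * ‖g'‖ ^ 2 + 2 * ‖g - g'‖ ^ 2 := by
        have e3 : ‖g‖ ≤ ‖g'‖ + ‖g - g'‖ := by
          have := norm_add_le g' (g - g')
          rwa [add_sub_cancel] at this
        have := mul_self_le_mul_self (norm_nonneg _) e3
        nlinarith [sq_nonneg (‖g'‖ - ‖g - g'‖)]
      have e4 := mul_le_mul_of_nonneg_left e2 hη0.le
      split_ifs
      · linarith
      · have : 0 ≤ η * ‖g - g'‖ ^ 2 := by positivity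
        linarith
    have e5 : ∑ x ∈ Dᶜ, ∑ y, η * ‖Gr (Hr U E) (fun _ => η) x y -
        Gr (Hr U₂ E) (fun _ => η) x y‖ ^ 2 ≤ ρ ^ 2 * S := by
      refine le_trans (Finset.sum_le_sum_of_subset_of_nonneg (Finset.subset_univ _)
        fun x _ _ => Finset.sum_nonneg fun y _ => by positivity) s2
    have e6 : ∑ x ∈ Dᶜ, η * ∑ y, (if P x y then ‖Gr (Hr U E) (fun _ => η) x y‖ ^ 2 else 0) ≤
        2 * (∑ x ∈ Dᶜ, η * ∑ y, (if P x y then ‖Gr (Hr U₂ E) (fun _ => η) x y‖ ^ 2 else 0)) +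
        2 * ∑ x ∈ Dᶜ, ∑ y, η * ‖Gr (Hr U E) (fun _ => η) x y -
          Gr (Hr U₂ E) (fun _ => η) x y‖ ^ 2 := by
      rw [Finset.mul_sum, Finset.mul_sum, ← Finset.sum_add_distrib]
      exact Finset.sum_le_sum fun x _ => e1 x
    linarith
  -- the counts
  have hsum1 : ∑ x ∈ Dᶜ, η * ∑ y, (if ANP.H61.sd x y < 2 ^ j then
      ‖Gr (Hr U E) (fun _ => η) x y‖ ^ 2 else 0) ≤ (28 + 30 * ρ ^ 2) * S + 12 * a * N := by
    have h0 : ∑ x ∈ Dᶜ, η * ∑ y, (if ANP.H61.sd x y < 2 ^ j then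
        ‖Gr (Hr U₂ E) (fun _ => η) x y‖ ^ 2 else 0) ≤ 7 * S₂ + 6 * a * N := by
      refine r1.trans ?_
      have h1 := mul_le_mul_of_nonneg_right (add_le_add n1 n3) hN0'
      linarith
    have h2 := hgen (fun x y => ANP.H61.sd x y < 2 ^ j) (by
      refine le_trans (le_of_eq ?_) h0
      refine Finset.sum_congr rfl fun x _ => ?_
      congr 1
      refine Finset.sum_congr rfl fun y _ => ?_
      by_cases h : ANP.H61.sd x y < 2 ^ j
      · rw [if_pos h, if_pos h]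
      · rw [if_neg h, if_neg h])
    refine le_trans (le_of_eq ?_) h2
    refine Finset.sum_congr rfl fun x _ => ?_
    congr 1
    refine Finset.sum_congr rfl fun y _ => ?_
    by_cases h : ANP.H61.sd x y < 2 ^ j
    · rw [if_pos h, if_pos h]
    · rw [if_neg h, if_neg h]
  have hsum2 : ∑ x ∈ Dᶜ, η * ∑ y, (if R ≤ ANP.H61.sd x y then
      ‖Gr (Hr U E) (fun _ => η) x y‖ ^ 2 else 0) ≤ (28 + 30 * ρ ^ 2) * S + 12 * a * N := by
    have h0 : ∑ x ∈ Dᶜ, η * ∑ y, (if R ≤ ANP.H61.sd x y then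
        ‖Gr (Hr U₂ E) (fun _ => η) x y‖ ^ 2 else 0) ≤ 7 * S₂ + 6 * a * N := by
      refine r2.trans ?_
      have h1 := mul_le_mul_of_nonneg_right (add_le_add n1 n2) hN0'
      linarith
    have h2 := hgen (fun x y => R ≤ ANP.H61.sd x y) (by
      refine le_trans (le_of_eq ?_) h0
      refine Finset.sum_congr rfl fun x _ => ?_
      congr 1
      refine Finset.sum_congr rfl fun y _ => ?_
      by_cases h : R ≤ ANP.H61.sd x y
      · rw [if_pos h, if_pos h]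
      · rw [if_neg h, if_neg h])
    refine le_trans (le_of_eq ?_) h2
    refine Finset.sum_congr rfl fun x _ => ?_
    congr 1
    refine Finset.sum_congr rfl fun y _ => ?_
    by_cases h : R ≤ ANP.H61.sd x y
    · rw [if_pos h, if_pos h]
    · rw [if_neg h, if_neg h]
  have m1 := markov (Dᶜ) (fun x => η * ∑ y, (if ANP.H61.sd x y < 2 ^ j then
      ‖Gr (Hr U E) (fun _ => η) x y‖ ^ 2 else 0)) ε _ hε (fun x _ => mul_nonneg hη0.le
        (Finset.sum_nonneg fun y _ => by split_ifs <;> positivity)) hsum1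
  have m2 := markov (Dᶜ) (fun x => η * ∑ y, (if R ≤ ANP.H61.sd x y then
      ‖Gr (Hr U E) (fun _ => η) x y‖ ^ 2 else 0)) ε _ hε (fun x _ => mul_nonneg hη0.le
        (Finset.sum_nonneg fun y _ => by split_ifs <;> positivity)) hsum2
  have m4 := markov (Dᶜ) (fun x => ‖Gr (Hr U E) (fun _ => η) x x -
      Gr (Hr U₂ E) (fun _ => η) x x‖) τ _ hτ0 (fun x _ => norm_nonneg _)
    ((Finset.sum_le_sum_of_subset_of_nonneg (Finset.subset_univ _)
      fun x _ _ => norm_nonneg _).trans s3)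
  rw [← hη, ← hD, ← hN]
  have hS' : ∑ b ∈ D, (Gt U E η b b).im = S := hS.symm
  rw [hS']
  -- the union
  obtain ⟨B1, hB1⟩ : ∃ B1 : Finset (Tor d (2 ^ μ)), B1 = (Dᶜ).filter fun x =>
      ε < η * ∑ y, (if ANP.H61.sd x y < 2 ^ j then
        ‖Gr (Hr U E) (fun _ => η) x y‖ ^ 2 else 0) := ⟨_, rfl⟩
  obtain ⟨B2, hB2⟩ : ∃ B2 : Finset (Tor d (2 ^ μ)), B2 = (Dᶜ).filter fun x =>
      ε < η * ∑ y, (if R ≤ ANP.H61.sd x y then
        ‖Gr (Hr U E) (fun _ => η) x y‖ ^ 2 else 0) := ⟨_, rfl⟩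
  obtain ⟨B3, hB3⟩ : ∃ B3 : Finset (Tor d (2 ^ μ)), B3 = (Dᶜ).filter fun x =>
      (Gr (Hr U₂ E) (fun _ => η) x x).im < c₀ / 16 ∨
      2 * (2 * C₀) + c₀ / 16 < (Gr (Hr U₂ E) (fun _ => η) x x).im := ⟨_, rfl⟩
  obtain ⟨B4, hB4⟩ : ∃ B4 : Finset (Tor d (2 ^ μ)), B4 = (Dᶜ).filter fun x =>
      τ < ‖Gr (Hr U E) (fun _ => η) x x - Gr (Hr U₂ E) (fun _ => η) x x‖ := ⟨_, rfl⟩
  obtain ⟨B5, hB5⟩ : ∃ B5 : Finset (Tor d (2 ^ μ)), B5 = (Dᶜ).filter fun x =>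
      ε / 2 < ‖Gr (Hr U₂ E) (fun _ => η) x x - m₀‖ := ⟨_, rfl⟩
  rw [← hB1] at m1
  rw [← hB2] at m2
  rw [← hB3] at r3
  rw [← hB4] at m4
  rw [← hB5] at r5
  have hsub : ((Dᶜ).filter fun x => Bad U E η (1 / K) ε (2 ^ j) R x ∨
      ε < ‖Gt U E η x x - m₀‖) ⊆ (B5 ∪ (B3 ∪ B4)) ∪ (B1 ∪ B2) := by
    intro x hx
    obtain ⟨hxc, hx'⟩ := Finset.mem_filter.1 hx
    by_cases hx4 : x ∈ B4
    · exact Finset.mem_union_left _ (Finset.mem_union_right _ (Finset.mem_union_right _ hx4))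
    have h4 : ‖Gr (Hr U E) (fun _ => η) x x - Gr (Hr U₂ E) (fun _ => η) x x‖ ≤ τ := by
      by_contra hcon
      push Not at hcon
      apply hx4
      rw [hB4]
      exact Finset.mem_filter.2 ⟨hxc, hcon⟩
    have h5 := (Complex.abs_im_le_norm _).trans h4
    rw [Complex.sub_im] at h5
    obtain ⟨h6, h7⟩ := abs_le.1 h5
    rcases hx' with (h | h | h | h) | h
    · refine Finset.mem_union_left _ (Finset.mem_union_right _ (Finset.mem_union_left _ ?_))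
      rw [hB3]
      refine Finset.mem_filter.2 ⟨hxc, Or.inl ?_⟩
      have h8 : (Gr (Hr U E) (fun _ => η) x x).im < 1 / K := h
      linarith
    · refine Finset.mem_union_left _ (Finset.mem_union_right _ (Finset.mem_union_left _ ?_))
      rw [hB3]
      refine Finset.mem_filter.2 ⟨hxc, Or.inr ?_⟩
      rw [one_div_one_div] at h
      have h8 : K < (Gr (Hr U E) (fun _ => η) x x).im := h
      linarith
    · refine Finset.mem_union_right _ (Finset.mem_union_left _ ?_)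
      rw [hB1]
      exact Finset.mem_filter.2 ⟨hxc, h⟩
    · refine Finset.mem_union_right _ (Finset.mem_union_right _ ?_)
      rw [hB2]
      exact Finset.mem_filter.2 ⟨hxc, h⟩
    · refine Finset.mem_union_left _ (Finset.mem_union_left _ ?_)
      rw [hB5]
      refine Finset.mem_filter.2 ⟨hxc, ?_⟩
      have h8 : ε < ‖Gr (Hr U E) (fun _ => η) x x - m₀‖ := h
      have h9 : ‖Gr (Hr U E) (fun _ => η) x x - m₀‖ ≤
          ‖Gr (Hr U E) (fun _ => η) x x - Gr (Hr U₂ E) (fun _ => η) x x‖ +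
          ‖Gr (Hr U₂ E) (fun _ => η) x x - m₀‖ := by
        have := norm_add_le (Gr (Hr U E) (fun _ => η) x x - Gr (Hr U₂ E) (fun _ => η) x x)
          (Gr (Hr U₂ E) (fun _ => η) x x - m₀)
        rwa [sub_add_sub_cancel] at this
      linarith
  have hc1' : (((Dᶜ).filter fun x => Bad U E η (1 / K) ε (2 ^ j) R x ∨
      ε < ‖Gt U E η x x - m₀‖).card : ℝ) ≤
      (B5.card + (B3.card + B4.card)) + (B1.card + B2.card) := by
    have h1 := Finset.card_le_card hsub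
    have h2 := Finset.card_union_le (B5 ∪ (B3 ∪ B4)) (B1 ∪ B2)
    have h3 := Finset.card_union_le B5 (B3 ∪ B4)
    have h4 := Finset.card_union_le B1 B2
    have h5 := Finset.card_union_le B3 B4
    exact_mod_cast h1.trans (h2.trans (by omega))
  have e1 : S₂ / (c₀ / 16 / 2) = 32 / c₀ * S₂ := by
    field_simp
    ring
  have e2 : ((28 + 30 * ρ ^ 2) * S + 12 * a * N) / ε = (28 + 30 * ρ ^ 2) / ε * S + ε / 4 * N := by
    rw [ha]
    field_simp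
    ring
  have e7 : ρ / 2 * (3 + 2 * ρ ^ 2) * S / τ = ρ / 2 * (3 + 2 * ρ ^ 2) / τ * S := by
    field_simp
  have e8 : S₂ / (ε / 4) = 4 / ε * S₂ := by
    field_simp
  rw [e1] at r3
  rw [e2] at m1 m2
  rw [e7] at m4
  rw [e8] at r5
  have r3' : (B3.card : ℝ) ≤ 32 / c₀ * (2 + 2 * ρ ^ 2) * S := by
    refine r3.trans ?_
    rw [mul_assoc]
    exact mul_le_mul_of_nonneg_left hS₂S t1.le
  have r5' : (B5.card : ℝ) ≤ 4 / ε * (2 + 2 * ρ ^ 2) * S := by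
    refine r5.trans ?_
    rw [mul_assoc]
    exact mul_le_mul_of_nonneg_left hS₂S (by positivity)
  have e3 : L₀ * S ≤ K * S := mul_le_mul_of_nonneg_right hK6 hS0
  have e3' : L₀ * S = 32 / c₀ * (2 + 2 * ρ ^ 2) * S +
    ρ / 2 * (3 + 2 * ρ ^ 2) / τ * S + 2 * ((28 + 30 * ρ ^ 2) / ε * S) +
    4 / ε * (2 + 2 * ρ ^ 2) * S := by
    rw [hL₀]
    ring
  have e4 : 0 ≤ ε * N := mul_nonneg hε.le hN0'
  have e6 : ε / 4 * N = (ε * N) / 4 := by ring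
  refine hc1'.trans ?_
  clear hsub hgen hsum1 hsum2 r1 r2 n1 n2 n3 hU hL hK4 hK5 hδ hK hL₀ s1 s2 s3
  linarith

open Classical in
/-- EDQ -/
theorem edq (hT : Tri2Stmt) (hNg : Ngn2Stmt) (hUP : UpfStmt) (hLO : LofStmt) : EdqStmt := by
  intro d c₀ C₀ ε hd hc₀ hc1 hC₀ hε
  obtain ⟨K, δ, hK, hδ, h⟩ := edx hT hNg hUP hLO d c₀ C₀ ε hd hc₀ hc1 hC₀ hε
  refine ⟨K, δ, hK, hδ, ?_⟩
  intro μ j R T E e₀ f D₀ D₁ m₀ U he hf hef hm1 hm2 hs hmb hUr hUd hFm hD₀ hj hR q1 q2 q3 hDD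
  have h1 := h μ j R T E e₀ f D₀ D₁ m₀ U he hf hef hm1 hm2 hs hmb hUr hUd hFm hD₀ hj hR q1 q2 q3
    hDD
  obtain ⟨D, hD⟩ : ∃ D : Finset (Tor d (2 ^ μ)), D = Finset.univ.filter fun x => (T.s x : ℝ) = 0 :=
    ⟨_, rfl⟩
  rw [← hD] at h1 ⊢
  obtain ⟨B, hB⟩ : ∃ B : Finset (Tor d (2 ^ μ)), B = (Dᶜ).filter fun x =>
      Bad U E (f * m₀.im) (1 / K) ε (2 ^ j) R x ∨ ε < ‖Gt U E (f * m₀.im) x x - m₀‖ := ⟨_, rfl⟩
  rw [← hB] at h1
  have hsub : (Finset.univ.filter fun x => Bad U E (f * m₀.im) (1 / K) ε (2 ^ j) R x) ⊆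
      D ∪ B := by
    intro x hx
    have hx' := (Finset.mem_filter.1 hx).2
    by_cases hxD : x ∈ D
    · exact Finset.mem_union_left _ hxD
    · refine Finset.mem_union_right _ ?_
      rw [hB]
      exact Finset.mem_filter.2 ⟨Finset.mem_compl.2 hxD, Or.inl hx'⟩
  have h2 : ((Finset.univ.filter fun x => Bad U E (f * m₀.im) (1 / K) ε (2 ^ j) R x).card : ℝ) ≤
      (D.card : ℝ) + B.card := by
    exact_mod_cast (Finset.card_le_card hsub).trans (Finset.card_union_le _ _)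
  linarith

end Pool.Agent.QDA.H72
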