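import Pool.Agent.QDA.StmtsM
import Pool.Agent.Helper72_QDA.Edq

/-!
# QDA, EDM: the deterministic end with the local law
-/

set_option autoImplicit false

open scoped BigOperators ComplexConjugate NNReal

noncomputable section

namespace Pool.Agent.QDA.H72

open Pool.Agent.LTG (Tor Bd sT tT bon Box Fm qd mor LB UB)

open Classical in
/-- EDM -/
theorem edm (hT : Tri2Stmt) (hNg : Ngn2Stmt) (hUP : UpfStmt) (hLO : LofStmt) : EdmStmt := by
  intro d c₀ C₀ ε hd hc₀ hc1 hC₀ hε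
  obtain ⟨K, δ, hK, hδ, h⟩ := edx hT hNg hUP hLO d c₀ C₀ ε hd hc₀ hc1 hC₀ hε
  refine ⟨K, δ, hK, hδ, ?_⟩
  intro μ j R T E e₀ f D₀ D₁ m₀ U he hf hef hm1 hm2 hs hmb hUr hUd hFm hD₀ hj hR q1 q2 q3 hDD
  have h1 := h μ j R T E e₀ f D₀ D₁ m₀ U he hf hef hm1 hm2 hs hmb hUr hUd hFm hD₀ hj hR q1 q2 q3
    hDD
  obtain ⟨D, hD⟩ : ∃ D : Finset (Tor d (2 ^ μ)), D = Finset.univ.filter fun x => (T.s x : ℝ) = 0 :=
    ⟨_, rfl⟩
  rw [← hD] at h1 ⊢
  obtain ⟨B, hB⟩ : ∃ B : Finset (Tor d (2 ^ μ)), B = (Dᶜ).filter fun x =>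
      Bad U E (f * m₀.im) (1 / K) ε (2 ^ j) R x ∨ ε < ‖Gt U E (f * m₀.im) x x - m₀‖ := ⟨_, rfl⟩
  rw [← hB] at h1
  have hsub : (Finset.univ.filter fun x => BadM U E (f * m₀.im) m₀ ε (2 ^ j) R x) ⊆
      D ∪ B := by
    intro x hx
    have hx' : BadM U E (f * m₀.im) m₀ ε (2 ^ j) R x := (Finset.mem_filter.1 hx).2
    by_cases hxD : x ∈ D
    · exact Finset.mem_union_left _ hxD
    · refine Finset.mem_union_right _ ?_
      rw [hB]
      refine Finset.mem_filter.2 ⟨Finset.mem_compl.2 hxD, ?_⟩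
      rcases hx' with h | h | h
      · exact Or.inr h
      · exact Or.inl (Or.inr (Or.inr (Or.inl h)))
      · exact Or.inl (Or.inr (Or.inr (Or.inr h)))
  have h2 : ((Finset.univ.filter fun x => BadM U E (f * m₀.im) m₀ ε (2 ^ j) R x).card : ℝ) ≤
      (D.card : ℝ) + B.card := by
    exact_mod_cast (Finset.card_le_card hsub).trans (Finset.card_union_le _ _)
  linarith

end Pool.Agent.QDA.H72
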